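import Pool.Agent.H36.CpFour

set_option autoImplicit false
set_option linter.unusedSectionVars false

namespace Pool.Agent.H36

open Set TopologicalSpace unitInterval

/-- cubes of weight at most continuum are separable -/
theorem separable_cube {Ω : Type} (h : Cardinal.mk Ω ≤ Cardinal.continuum) :
    SeparableSpace (Ω → I) := by
  classical
  have hcard : Cardinal.mk Ω ≤ Cardinal.mk (ℕ → Bool) := by
    refine h.trans (le_of_eq ?_)
    simp
  obtain ⟨e⟩ := hcard
  obtain ⟨D, hDc, hDd⟩ := exists_countable_dense I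
  have : Countable D := hDc.to_subtype
  let Y : (Σ n : ℕ, ((Fin n → Bool) → D)) → (Ω → I) := fun p c => (p.2 fun i => e c i : D)
  refine ⟨range Y, countable_range Y, ?_⟩
  rw [dense_iff_inter_open]
  rintro U hU ⟨y, hy⟩
  obtain ⟨a, u, hu, hsub⟩ := isOpen_pi_iff.1 hU y hy
  -- a level separating the points of `a`
  have hn : ∃ n : ℕ, ∀ c ∈ a, ∀ c' ∈ a, (∀ i < n, e c i = e c' i) → c = c' := by
    have hpair : ∀ c c' : Ω, ∃ n : ℕ, (∀ i < n, e c i = e c' i) → c = c' := by
      intro c c'
      by_cases hcc : c = c'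
      · exact ⟨0, fun _ => hcc⟩
      · have : e c ≠ e c' := fun h => hcc (e.injective h)
        obtain ⟨i, hi⟩ := Function.ne_iff.1 this
        exact ⟨i+1, fun h => absurd (h i (Nat.lt_succ_self i)) hi⟩
    choose n hn using hpair
    refine ⟨a.sup fun c => a.sup fun c' => n c c', ?_⟩
    intro c hc c' hc' h
    refine hn c c' fun i hi => h i (hi.trans_le ?_)
    exact (Finset.le_sup (f := fun c' => n c c') hc').trans
      (Finset.le_sup (f := fun c => a.sup fun c' => n c c') hc)
  obtain ⟨n, hn⟩ := hn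
  have hd : ∀ c : Ω, ∃ d : D, c ∈ a → (d : I) ∈ u c := by
    intro c
    by_cases hc : c ∈ a
    · obtain ⟨d, hd1, hd2⟩ := hDd.inter_open_nonempty (u c) (hu c hc).1 ⟨y c, (hu c hc).2⟩
      exact ⟨⟨d, hd2⟩, fun _ => hd1⟩
    · obtain ⟨d, hd⟩ := hDd.nonempty
      exact ⟨⟨d, hd⟩, fun h => absurd h hc⟩
  choose d hd using hd
  obtain ⟨d₀, hd₀⟩ := hDd.nonempty
  let g : (Fin n → Bool) → D := fun b =>
    if hb : ∃ c ∈ a, (fun i : Fin n => e c i) = b then d hb.choose else ⟨d₀, hd₀⟩
  refine ⟨Y ⟨n, g⟩, hsub ?_, mem_range_self _⟩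
  intro c hc
  have hb : ∃ c' ∈ a, (fun i : Fin n => e c' i) = (fun i : Fin n => e c i) := ⟨c, hc, rfl⟩
  have hval : Y ⟨n, g⟩ c = (d hb.choose : I) := by
    show ((g fun i => e c i : D) : I) = _
    simp only [g, dif_pos hb]
  have heq : hb.choose = c := by
    refine hn _ hb.choose_spec.1 _ hc fun i hi => ?_
    exact congrFun hb.choose_spec.2 ⟨i, hi⟩
  rw [hval, heq]
  exact hd c hc

/-- interpolation by locally constant functions on finite sets -/
theorem exists_locallyConstant_eq {X T : Type} [TopologicalSpace X] [CompactSpace X] [T2Space X]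
    [TotallyDisconnectedSpace X] (r : X → T) (t₀ : T) (a : Finset X) :
    ∃ f : LocallyConstant X T, ∀ x ∈ a, f x = r x := by
  classical
  induction a using Finset.induction_on with
  | empty => exact ⟨LocallyConstant.const X t₀, by simp⟩
  | insert x a hx ih =>
    obtain ⟨f, hf⟩ := ih
    obtain ⟨h, h1, h2⟩ := glue (LocallyConstant.const X (r x)) f {x} a (by
      intro z hz hza
      rw [Finset.mem_singleton] at hz
      subst hz
      exact absurd hza hx)
    refine ⟨h, fun z hz => ?_⟩
    rcases Finset.mem_insert.1 hz with rfl | hz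
    · rw [h1 z (Finset.mem_singleton_self z)]
      rfl
    · rw [h2 z hz, hf z hz]

/-- A continuous map `C_p(X) → C_p([0,1]^Ω)`, `X` compact zero-dimensional, `[0,1]^Ω` separable:
all values depend on one countable set of coordinates. -/
theorem countable_support_Cp {Ω X : Type} [SeparableSpace (Ω → I)]
    [TopologicalSpace X] [CompactSpace X] [T2Space X] [TotallyDisconnectedSpace X]
    (φ : {f : X → ℝ // Continuous f} → {g : (Ω → I) → ℝ // Continuous g}) (hφ : Continuous φ) :
    ∃ α : Set Ω, α.Countable ∧ ∀ f, ∀ y y' : Ω → I, (∀ c ∈ α, y' c = y c) →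
      (φ f).1 y = (φ f).1 y' := by
  classical
  let ι : LocallyConstant X ℚ → {f : X → ℝ // Continuous f} := fun f =>
    ⟨fun x => (f x : ℝ), by
      have h1 : Continuous (fun q : ℚ => (q : ℝ)) := Rat.continuous_coe_real
      exact h1.comp f.continuous⟩
  have hev : ∀ y : Ω → I, Continuous fun f : {f : X → ℝ // Continuous f} => (φ f).1 y := by
    intro y
    exact (continuous_apply y).comp (continuous_subtype_val.comp hφ)
  obtain ⟨α, hα, hdep⟩ := countable_support (Ω := Ω) (X := X) (T := ℚ)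
    (fun f y => (φ (ι f)).1 y) (fun f => (φ (ι f)).2) (by
      intro y f₀ ε hε
      have hopen : IsOpen {f : {f : X → ℝ // Continuous f} | |(φ f).1 y - (φ (ι f₀)).1 y| < ε} :=
        isOpen_lt (((hev y).sub continuous_const).abs) continuous_const
      have hmem : ι f₀ ∈ {f : {f : X → ℝ // Continuous f} | |(φ f).1 y - (φ (ι f₀)).1 y| < ε} := by
        simp [hε]
      obtain ⟨U, hU, hUeq⟩ := isOpen_induced_iff.1 hopen
      have hm : (ι f₀).1 ∈ U := by
        have : ι f₀ ∈ Subtype.val ⁻¹' U := by rw [hUeq]; exact hmem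
        exact this
      obtain ⟨a, u, hu, hsub⟩ := isOpen_pi_iff.1 hU _ hm
      refine ⟨a, fun f hf => ?_⟩
      have : ι f ∈ Subtype.val ⁻¹' U := by
        refine hsub fun x hx => ?_
        show ((f x : ℝ)) ∈ u x
        rw [hf x hx]
        exact (hu x hx).2
      rw [hUeq] at this
      exact le_of_lt this)
  refine ⟨α, hα, ?_⟩
  intro f y y' hag
  have hclosed : IsClosed {f : {f : X → ℝ // Continuous f} | (φ f).1 y = (φ f).1 y'} :=
    isClosed_eq (hev y) (hev y')
  have hdense : f ∈ closure (range ι) := by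
    rw [mem_closure_iff]
    intro V hV hfV
    obtain ⟨U, hU, rfl⟩ := isOpen_induced_iff.1 hV
    obtain ⟨a, u, hu, hsub⟩ := isOpen_pi_iff.1 hU _ hfV
    have : ∀ x : X, ∃ r : ℚ, x ∈ a → (r : ℝ) ∈ u x := by
      intro x
      by_cases hx : x ∈ a
      · obtain ⟨r, hr⟩ := Rat.denseRange_cast.exists_mem_open (hu x hx).1 ⟨_, (hu x hx).2⟩
        exact ⟨r, fun _ => hr⟩
      · exact ⟨0, fun h => absurd h hx⟩
    choose r hr using this
    obtain ⟨g, hg⟩ := exists_locallyConstant_eq r 0 a
    refine ⟨ι g, hsub fun x hx => ?_, mem_range_self g⟩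
    show ((g x : ℝ)) ∈ u x
    rw [hg x hx]
    exact hr x hx
  exact closure_minimal (by rintro _ ⟨g, rfl⟩; exact hdep g y y' hag) hclosed hdense

/-- network from countable support -/
theorem network_of_countable_support {Ω : Type} {A : Type}
    (φ : A → {g : (Ω → I) → ℝ // Continuous g}) (α : Set Ω) (hα : α.Countable)
    (hdep : ∀ f, ∀ y y' : Ω → I, (∀ c ∈ α, y' c = y c) → (φ f).1 y = (φ f).1 y') :
    ∃ 𝒩 : Set (Set {g : (Ω → I) → ℝ // Continuous g}),
      𝒩.Countable ∧ ∀ x ∈ range φ, ∀ U : Set {g : (Ω → I) → ℝ // Continuous g},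
        IsOpen U → x ∈ U → ∃ N ∈ 𝒩, x ∈ N ∧ N ⊆ U ∩ range φ := by
  classical
  have : Countable α := hα.to_subtype
  let κ : C(α → I, ℝ) → {g : (Ω → I) → ℝ // Continuous g} := fun g =>
    ⟨fun y => g fun c : α => y c, g.continuous.comp (continuous_pi fun c => continuous_apply _)⟩
  have hκ : Continuous κ := by
    refine Continuous.subtype_mk (continuous_pi fun y => ?_) _
    exact continuous_eval_const (fun c : α => y c)
  refine ⟨(fun b => κ '' b ∩ range φ) '' (countableBasis C(α → I, ℝ)),
    (countable_countableBasis _).image _, ?_⟩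
  rintro x ⟨f, rfl⟩ U hU hxU
  let ext : (α → I) → (Ω → I) := fun z c => if h : c ∈ α then z ⟨c, h⟩ else 0
  have hext : Continuous ext := by
    refine continuous_pi fun c => ?_
    by_cases h : c ∈ α
    · simp only [ext, dif_pos h]
      exact continuous_apply _
    · simp only [ext, dif_neg h]
      exact continuous_const
  let g : C(α → I, ℝ) := ⟨fun z => (φ f).1 (ext z), (φ f).2.comp hext⟩
  have hg : κ g = φ f := by
    refine Subtype.ext (funext fun y => ?_)
    show (φ f).1 (ext fun c : α => y c) = (φ f).1 y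
    refine (hdep f y _ fun c hc => ?_).symm
    simp only [ext, dif_pos hc]
  obtain ⟨b, hb, hgb, hbU⟩ := (isBasis_countableBasis C(α → I, ℝ)).exists_subset_of_mem_open
    (show g ∈ κ ⁻¹' U by rw [mem_preimage, hg]; exact hxU) (hU.preimage hκ)
  refine ⟨_, mem_image_of_mem _ hb, ⟨⟨g, hgb, hg⟩, mem_range_self f⟩, ?_⟩
  rintro _ ⟨⟨g', hg', rfl⟩, hr⟩
  exact ⟨hbU hg', hr⟩

end Pool.Agent.H36
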