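import Pool.Agent.H36.CpTwo

set_option autoImplicit false
set_option linter.unusedSectionVars false

namespace Pool.Agent.H36

open Set TopologicalSpace unitInterval

/-- small connected open neighbourhoods in the unit interval -/
theorem exists_preconnected_nhd {u : Set I} (hu : IsOpen u) {t : I} (ht : t ∈ u) :
    ∃ v ⊆ u, IsOpen v ∧ IsPreconnected v ∧ t ∈ v := by
  obtain ⟨r, hr, hsub⟩ := Metric.isOpen_iff.1 hu t ht
  refine ⟨Metric.ball t r, hsub, Metric.isOpen_ball, ?_, Metric.mem_ball_self hr⟩
  have hind : Topology.IsInducing (Subtype.val : I → ℝ) := Topology.IsInducing.subtypeVal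
  rw [← hind.isPreconnected_image]
  have : (Subtype.val : I → ℝ) '' Metric.ball t r = Ioo (t - r : ℝ) (t + r) ∩ Icc 0 1 := by
    ext x
    constructor
    · rintro ⟨z, hz, rfl⟩
      have : dist (z : ℝ) t < r := hz
      rw [Real.dist_eq, abs_lt] at this
      exact ⟨⟨by linarith, by linarith⟩, z.2⟩
    · rintro ⟨⟨h1, h2⟩, h3⟩
      refine ⟨⟨x, h3⟩, ?_, rfl⟩
      show dist x (t : ℝ) < r
      rw [Real.dist_eq, abs_lt]
      constructor <;> linarith
  rw [this]
  exact (ordConnected_Ioo.inter ordConnected_Icc).isPreconnected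

variable {Ω : Type}

/-- a box inside an open set of the cube -/
theorem exists_box {O : Set (Ω → I)} (hO : IsOpen O) (hne : O.Nonempty) :
    ∃ J : Ω → Set I, (∀ c, IsPreconnected (J c)) ∧ Set.pi univ J ⊆ O ∧
      IsOpen (Set.pi univ J) ∧ (Set.pi univ J).Nonempty := by
  classical
  obtain ⟨y, hy⟩ := hne
  obtain ⟨a, u, hu, hsub⟩ := isOpen_pi_iff.1 hO y hy
  have : ∀ c : Ω, ∃ v : Set I, IsOpen v ∧ IsPreconnected v ∧ y c ∈ v ∧ (c ∈ a → v ⊆ u c) ∧
      (c ∉ a → v = univ) := by
    intro c
    by_cases hc : c ∈ a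
    · obtain ⟨v, h1, h2, h3, h4⟩ := exists_preconnected_nhd (hu c hc).1 (hu c hc).2
      exact ⟨v, h2, h3, h4, fun _ => h1, fun h => absurd hc h⟩
    · exact ⟨univ, isOpen_univ, isPreconnected_univ, mem_univ _, fun h => absurd h hc,
        fun _ => rfl⟩
  choose J hJo hJp hJy hJa hJn using this
  have heq : Set.pi univ J = Set.pi (a : Set Ω) J := by
    ext z
    constructor
    · intro hz c _
      exact hz c (mem_univ c)
    · intro hz c _
      by_cases hc : c ∈ a
      · exact hz c hc
      · rw [hJn c hc]; exact mem_univ _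
  refine ⟨J, hJp, ?_, ?_, ⟨y, fun c _ => hJy c⟩⟩
  · intro z hz
    exact hsub fun c hc => hJa c hc (hz c (mem_univ c))
  · rw [heq]
    exact isOpen_set_pi a.finite_toSet fun c _ => hJo c

variable [SeparableSpace (Ω → I)]
variable {Z : Type} [TopologicalSpace Z] [CompactSpace Z] [T2Space Z] [TotallyDisconnectedSpace Z]

/-- Main lemma on closed multifunctions with boundedly many values. -/
theorem exists_countable_support_selection (P : Set ((Ω → I) × Z)) (hP : IsClosed P)
    (O : Set (Ω → I)) (hO : IsOpen O) (hne : O.Nonempty) (hex : ∀ y ∈ O, ∃ x, (y, x) ∈ P)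
    (M : ℕ) (hM : ∀ y ∈ O, ∃ S : Finset Z, S.card ≤ M ∧ ∀ x, (y, x) ∈ P → x ∈ S) :
    ∃ O' ⊆ O, IsOpen O' ∧ O'.Nonempty ∧ ∃ s : Set Ω, s.Countable ∧
      ∀ y ∈ O', ∃ x, ∀ w ∈ O', (∀ c ∈ s, w c = y c) → (w, x) ∈ P := by
  classical
  -- no `M+1` disjoint clopen sets
  have hSepM : ∀ y ∈ O, ¬ Sep P (M+1) y := by
    rintro y hy ⟨V, hV, hdis, hR⟩
    obtain ⟨S, hS, hSx⟩ := hM y hy
    have : ∀ i, ∃ x ∈ V i, (y, x) ∈ P := fun i => Rset_subset hP (hV i).isClosed (hR i)
    choose x hxV hxP using this
    have hinj : Function.Injective x := by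
      intro i j hij
      by_contra hne
      exact Set.disjoint_left.1 (hdis i j hne) (hxV i) (hij ▸ hxV j)
    have hcard : (Finset.univ.image x).card ≤ S.card := by
      refine Finset.card_le_card ?_
      intro z hz
      rw [Finset.mem_image] at hz
      obtain ⟨i, _, rfl⟩ := hz
      exact hSx _ (hxP i)
    rw [Finset.card_image_of_injective _ hinj, Finset.card_fin] at hcard
    omega
  let p : ℕ → Prop := fun m => ∃ O' ⊆ O, IsOpen O' ∧ O'.Nonempty ∧ ∀ y ∈ O', ¬ Sep P (m+1) y
  have hp : ∃ m, p m := ⟨M, O, Subset.rfl, hO, hne, hSepM⟩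
  obtain ⟨O₁, h1, h2, h3, h4⟩ := Nat.find_spec hp
  set m := Nat.find hp with hm
  have hmin : ∀ k < m, ¬ p k := fun k hk => Nat.find_min hp hk
  -- `m` is positive
  have hmpos : 0 < m := by
    by_contra h0
    have h0' : m = 0 := by omega
    obtain ⟨y, hy⟩ := h3
    apply h4 y hy
    rw [h0']
    refine ⟨fun _ => univ, fun _ => isClopen_univ, ?_, ?_⟩
    · intro i j hij
      exact absurd (Fin.ext (by have := i.2; have := j.2; omega)) hij
    · intro _
      refine subset_closure ?_
      refine interior_maximal ?_ h2 hy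
      intro z hz
      obtain ⟨x, hx⟩ := hex z (h1 hz)
      exact ⟨x, mem_univ _, hx⟩
  obtain ⟨m', hm'⟩ : ∃ m', m = m' + 1 := ⟨m - 1, by omega⟩
  -- density of points with `m` disjoint sets
  have hdense : ∀ O'' ⊆ O₁, IsOpen O'' → O''.Nonempty → ∃ y ∈ O'', Sep P (m'+1) y := by
    intro O'' hsub ho hn
    by_contra hcon
    push Not at hcon
    exact hmin m' (by omega) ⟨O'', hsub.trans h1, ho, hn, hcon⟩
  obtain ⟨J, hJp, hJsub, hJo, hJne⟩ := exists_box h2 h3
  set B : Set (Ω → I) := Set.pi univ J with hB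
  -- special points
  let Sp : (Ω → I) → Set Ω → Z → Prop := fun y s x =>
    ∀ w ∈ B, (∀ c ∈ s, w c = y c) → (w, x) ∈ P
  let E : Set (Ω → I) := {y | y ∈ B ∧ ∃ s : Set Ω, s.Countable ∧ ∃ x, Sp y s x}
  have hE : ∀ y ∈ B, ∀ N : Set (Ω → I), IsOpen N → y ∈ N → ∃ q ∈ E, q ∈ N := by
    intro y0 hy0 N hN hy0N
    obtain ⟨y, ⟨hyB, hyN⟩, V, hV, hdis, hR⟩ := hdense (B ∩ N) (inter_subset_left.trans hJsub)
      (hJo.inter hN) ⟨y0, hy0, hy0N⟩
    refine ⟨y, ⟨hyB, ?_⟩, hyN⟩
    have hs : ∀ i, ∃ s : Set Ω, s.Countable ∧ ∀ z ∈ Rset P (V i), ∀ w : Ω → I,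
        (∀ c ∈ s, w c = z c) → w ∈ Rset P (V i) := fun i => Rset_dep P (V i)
    choose s hsc hsdep using hs
    obtain ⟨x₀, hx₀V, hx₀⟩ := exists_point_of_mem_Rset hP (hV 0) (hR 0)
    refine ⟨⋃ i, s i, countable_iUnion hsc, x₀, ?_⟩
    intro w hwB hw
    -- the slice
    let T : Ω → Set I := fun c => if c ∈ ⋃ i, s i then {y c} else J c
    have hTp : IsPreconnected (Set.pi univ T) := by
      refine isPreconnected_univ_pi fun c => ?_
      by_cases hc : c ∈ ⋃ i, s i
      · simp only [T, if_pos hc]
        exact isPreconnected_singleton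
      · simp only [T, if_neg hc]
        exact hJp c
    have hTB : Set.pi univ T ⊆ B := by
      intro z hz c _
      have hzc := hz c (mem_univ c)
      by_cases hc : c ∈ ⋃ i, s i
      · simp only [T, if_pos hc, mem_singleton_iff] at hzc
        rw [hzc]
        exact hyB c (mem_univ c)
      · simp only [T, if_neg hc] at hzc
        exact hzc
    have hTag : ∀ z ∈ Set.pi univ T, ∀ c ∈ ⋃ i, s i, z c = y c := by
      intro z hz c hc
      have hzc := hz c (mem_univ c)
      simpa only [T, if_pos hc, mem_singleton_iff] using hzc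
    have hyT : y ∈ Set.pi univ T := by
      intro c _
      by_cases hc : c ∈ ⋃ i, s i
      · simp only [T, if_pos hc, mem_singleton_iff]
      · simp only [T, if_neg hc]
        exact hyB c (mem_univ c)
    have hwT : w ∈ Set.pi univ T := by
      intro c _
      by_cases hc : c ∈ ⋃ i, s i
      · simp only [T, if_pos hc, mem_singleton_iff]
        exact hw c hc
      · simp only [T, if_neg hc]
        exact hwB c (mem_univ c)
    have hTR : ∀ z ∈ Set.pi univ T, ∀ i, z ∈ Rset P (V i) := by
      intro z hz i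
      refine hsdep i y (hR i) z fun c hc => hTag z hz c (mem_iUnion.2 ⟨i, hc⟩)
    -- membership in all regularised clopen neighbourhoods of `x₀`
    have hkey : ∀ W : Set Z, IsClopen W → x₀ ∈ W → w ∈ Rset P W := by
      intro W hW hxW
      have hW1 : IsClopen (W ∩ V 0) := hW.inter (hV 0)
      have hW2 : IsClopen (V 0 \ W) := (hV 0).diff hW
      have hcover : Set.pi univ T ⊆ Rset P (W ∩ V 0) ∪ Rset P (V 0 \ W) := by
        intro z hz
        refine Rset_union hP hW1.isClosed ?_
        have : W ∩ V 0 ∪ V 0 \ W = V 0 := by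
          ext v
          simp only [mem_union, mem_inter_iff, mem_sdiff]
          tauto
        rw [this]
        exact hTR z hz 0
      have hne1 : (Set.pi univ T ∩ Rset P (W ∩ V 0)).Nonempty :=
        ⟨y, hyT, hx₀ _ hW1 ⟨hxW, hx₀V⟩⟩
      rcases hcover hwT with hw1 | hw1
      · exact Rset_mono inter_subset_left hw1
      · exfalso
        obtain ⟨z, hz, hz1, hz2⟩ := isPreconnected_closed_iff.1 hTp _ _
          (isClosed_Rset (P := P)) (isClosed_Rset (P := P)) hcover hne1 ⟨w, hwT, hw1⟩
        refine h4 z (hJsub (hTB hz)) ?_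
        rw [hm']
        refine ⟨Fin.cons (W ∩ V 0) (Fin.cons (V 0 \ W) fun i : Fin m' => V i.succ), ?_, ?_, ?_⟩
        · intro i
          refine Fin.cases ?_ (fun j => ?_) i
          · exact hW1
          · refine Fin.cases ?_ (fun k => ?_) j
            · exact hW2
            · exact hV k.succ
        · have hd0 : ∀ k : Fin m', Disjoint (V 0) (V k.succ) :=
            fun k => hdis 0 k.succ (Fin.succ_ne_zero k).symm
          intro i j
          refine Fin.cases ?_ (fun i => ?_) i
          · refine Fin.cases ?_ (fun j => ?_) j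
            · intro h; exact absurd rfl h
            · refine Fin.cases ?_ (fun k => ?_) j
              · intro _
                simp only [Fin.cons_zero, Fin.cons_succ]
                rw [Set.disjoint_left]
                rintro v ⟨hv1, _⟩ ⟨_, hv2⟩
                exact hv2 hv1
              · intro _
                simp only [Fin.cons_zero, Fin.cons_succ]
                exact (hd0 k).mono_left inter_subset_right
          · refine Fin.cases ?_ (fun i => ?_) i
            · refine Fin.cases ?_ (fun j => ?_) j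
              · intro _
                simp only [Fin.cons_zero, Fin.cons_succ]
                rw [Set.disjoint_left]
                rintro v ⟨_, hv2⟩ ⟨hv1, _⟩
                exact hv2 hv1
              · refine Fin.cases ?_ (fun k => ?_) j
                · intro h; exact absurd rfl h
                · intro _
                  simp only [Fin.cons_zero, Fin.cons_succ]
                  exact (hd0 k).mono_left sdiff_subset
            · refine Fin.cases ?_ (fun j => ?_) j
              · intro _
                simp only [Fin.cons_zero, Fin.cons_succ]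
                exact ((hd0 i).mono_left inter_subset_right).symm
              · refine Fin.cases ?_ (fun k => ?_) j
                · intro _
                  simp only [Fin.cons_zero, Fin.cons_succ]
                  exact ((hd0 i).mono_left sdiff_subset).symm
                · intro h
                  simp only [Fin.cons_succ]
                  refine hdis _ _ fun h' => h ?_
                  rw [h']
        · intro i
          refine Fin.cases ?_ (fun j => ?_) i
          · exact hz1
          · refine Fin.cases ?_ (fun k => ?_) j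
            · exact hz2
            · exact hTR z hz k.succ
    -- conclude by closedness
    by_contra hnot
    have hPo : IsOpen {x : Z | (w, x) ∈ Pᶜ} :=
      hP.isOpen_compl.preimage (Continuous.prodMk continuous_const continuous_id)
    obtain ⟨W, hW, hxW, hWsub⟩ := compact_exists_isClopen_in_isOpen hPo
      (show x₀ ∈ {x : Z | (w, x) ∈ Pᶜ} from hnot)
    obtain ⟨x, hx, hxP⟩ := Rset_subset hP hW.isClosed (hkey W hW hxW)
    exact hWsub hx hxP
  -- closing off
  have hsp : ∀ q : Ω → I, ∃ s : Set Ω, ∃ x : Z, q ∈ E → (s.Countable ∧ Sp q s x) := by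
    intro q
    by_cases hq : q ∈ E
    · obtain ⟨s, hs, x, hx⟩ := hq.2
      exact ⟨s, x, fun _ => ⟨hs, hx⟩⟩
    · obtain ⟨y, hy⟩ := hne
      obtain ⟨x, _⟩ := hex y hy
      exact ⟨∅, x, fun h => absurd h hq⟩
  choose sg xq hsg using hsp
  obtain ⟨s, hs, hclose⟩ := closing_off hE sg (fun q hq => (hsg q hq).1)
  refine ⟨B, hJsub.trans h1, hJo, hJne, s, hs, ?_⟩
  intro y hyB
  by_contra hcon
  push Not at hcon
  choose w hwB hwy hwP using hcon
  have hloc : ∀ x : Z, ∃ N : Set (Ω → I), ∃ V : Set Z, IsOpen N ∧ IsOpen V ∧ w x ∈ N ∧ x ∈ V ∧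
      N ×ˢ V ⊆ Pᶜ := by
    intro x
    obtain ⟨N, V, hN, hV, hwN, hxV, hsub⟩ := isOpen_prod_iff.1 hP.isOpen_compl (w x) x (hwP x)
    exact ⟨N, V, hN, hV, hwN, hxV, hsub⟩
  choose N V hN hV hwN hxV hNV using hloc
  obtain ⟨t, ht⟩ := isCompact_univ.elim_finite_subcover V hV
    (fun x _ => mem_iUnion.2 ⟨x, hxV x⟩)
  have hopen : IsOpen (⋂ x ∈ t, (mix s (w x)) ⁻¹' (N x)) :=
    isOpen_biInter_finset fun x _ => (hN x).preimage (continuous_mix s (w x))
  have hmem : y ∈ ⋂ x ∈ t, (mix s (w x)) ⁻¹' (N x) := by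
    refine mem_iInter₂.2 fun x _ => ?_
    show mix s (w x) y ∈ N x
    rw [mix_eq_of_agree (hwy x)]
    exact hwN x
  obtain ⟨q, hqE, hqs, v, hvN, hvq⟩ := hclose y hyB _ hopen hmem
  obtain ⟨x, hxt, hx⟩ := mem_iUnion₂.1 (ht (mem_univ (xq q)))
  have hv1 : mix s (w x) v ∈ N x := mem_iInter₂.1 hvN x hxt
  have hv2 : mix s (w x) v ∈ B := by
    intro c _
    by_cases hc : c ∈ s
    · rw [mix_mem hc, hvq c hc]
      exact hqE.1 c (mem_univ c)
    · rw [mix_not_mem hc]
      exact hwB x c (mem_univ c)
  have hv3 : (mix s (w x) v, xq q) ∈ P := by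
    refine (hsg q hqE).2 _ hv2 fun c hc => ?_
    rw [mix_mem (hqs hc), hvq c (hqs hc)]
  exact hNV x (mk_mem_prod hv1 hx) hv3

end Pool.Agent.H36
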