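import Pool.Agent.H36.CpOne
import Pool.Agent.H36.CpThree

set_option autoImplicit false
set_option linter.unusedSectionVars false

namespace Pool.Agent.H36

open Set TopologicalSpace unitInterval

/-! ### cofinal families of sets -/

section cofinal

variable {Ω : Type}

/-- every countable set is contained in a member of the family -/
def Cof (A : Set (Set Ω)) : Prop := ∀ β : Set Ω, β.Countable → ∃ α ∈ A, β ⊆ α

theorem not_Cof_iff {A : Set (Set Ω)} :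
    ¬ Cof A ↔ ∃ β : Set Ω, β.Countable ∧ ∀ α ∈ A, ¬ β ⊆ α := by
  unfold Cof
  push Not
  rfl

theorem Cof.pigeon {A : Set (Set Ω)} (hA : Cof A) {C : Type} [Countable C] (g : Set Ω → C) :
    ∃ c, Cof {α | α ∈ A ∧ g α = c} := by
  by_contra hcon
  push Not at hcon
  have : ∀ c, ∃ β : Set Ω, β.Countable ∧ ∀ α ∈ {α | α ∈ A ∧ g α = c}, ¬ β ⊆ α :=
    fun c => not_Cof_iff.1 (hcon c)
  choose β hβ hβ' using this
  obtain ⟨α, hα, hsub⟩ := hA (⋃ c, β c) (countable_iUnion hβ)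
  exact hβ' (g α) α ⟨hα, rfl⟩ ((subset_iUnion β (g α)).trans hsub)

theorem Cof.root {X : Type} (F : Set Ω → Finset X) (k : ℕ) : ∀ A : Set (Set Ω), Cof A →
    ∀ R : Finset X, (∀ α ∈ A, R ⊆ F α ∧ (F α).card ≤ R.card + k) →
    ∃ A' ⊆ A, Cof A' ∧ ∃ R' : Finset X, ∀ x, x ∉ R' → ¬ Cof {α | α ∈ A' ∧ x ∈ F α} := by
  classical
  induction k with
  | zero =>
    intro A hA R hR
    refine ⟨A, Subset.rfl, hA, R, ?_⟩
    intro x hx hcof
    obtain ⟨α, ⟨hα, hxα⟩, _⟩ := hcof ∅ countable_empty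
    have h1 := hR α hα
    have : R = F α := Finset.eq_of_subset_of_card_le h1.1 (by simpa using h1.2)
    exact hx (this ▸ hxα)
  | succ k ih =>
    intro A hA R hR
    by_cases h : ∃ x, x ∉ R ∧ Cof {α | α ∈ A ∧ x ∈ F α}
    · obtain ⟨x, hxR, hx⟩ := h
      obtain ⟨A', hA', hc, R', hR'⟩ := ih {α | α ∈ A ∧ x ∈ F α} hx (insert x R) (by
        rintro α ⟨hα, hxα⟩
        refine ⟨Finset.insert_subset hxα (hR α hα).1, ?_⟩
        rw [Finset.card_insert_of_notMem hxR]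
        have := (hR α hα).2
        omega)
      exact ⟨A', hA'.trans fun α h => h.1, hc, R', hR'⟩
    · push Not at h
      exact ⟨A, Subset.rfl, hA, R, h⟩

theorem Cof.exists_root {A : Set (Set Ω)} (hA : Cof A) {X : Type} (F : Set Ω → Finset X) :
    ∃ A' ⊆ A, Cof A' ∧ ∃ R : Finset X, ∀ x, x ∉ R → ¬ Cof {α | α ∈ A' ∧ x ∈ F α} := by
  obtain ⟨n, hn⟩ := hA.pigeon (fun α => (F α).card)
  obtain ⟨A', h1, h2, h3⟩ := Cof.root F n _ hn ∅ (by
    rintro α ⟨_, hα⟩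
    refine ⟨Finset.empty_subset _, ?_⟩
    simp [hα])
  exact ⟨A', h1.trans fun α h => h.1, h2, h3⟩

/-- choose a member avoiding finitely many non-cofinal parts and containing a countable set -/
theorem Cof.exists_avoid {A : Set (Set Ω)} (hA : Cof A) {X : Type} (F : Set Ω → Finset X)
    (t : Finset X) (ht : ∀ x ∈ t, ¬ Cof {α | α ∈ A ∧ x ∈ F α}) (β : Set Ω) (hβ : β.Countable) :
    ∃ α ∈ A, β ⊆ α ∧ ∀ x ∈ t, x ∉ F α := by
  classical
  have : ∀ x : X, ∃ γ : Set Ω, γ.Countable ∧ (x ∈ t → ∀ α ∈ A, x ∈ F α → ¬ γ ⊆ α) := by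
    intro x
    by_cases hx : x ∈ t
    · obtain ⟨γ, h1, h2⟩ := not_Cof_iff.1 (ht x hx)
      exact ⟨γ, h1, fun _ α hα hxα => h2 α ⟨hα, hxα⟩⟩
    · exact ⟨∅, countable_empty, fun h => absurd h hx⟩
  choose γ hγ hγ' using this
  obtain ⟨α, hα, hsub⟩ := hA (β ∪ ⋃ x ∈ t, γ x)
    (hβ.union (t.countable_toSet.biUnion fun x _ => hγ x))
  refine ⟨α, hα, subset_union_left.trans hsub, ?_⟩
  intro x hx hxα
  refine hγ' x hx α hα hxα ?_
  refine subset_trans ?_ (subset_union_right.trans hsub)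
  exact subset_biUnion_of_mem (u := fun x => γ x) (show x ∈ (t : Set X) from hx)

end cofinal

section main

variable {Ω X T : Type} [SeparableSpace (Ω → I)]
variable [TopologicalSpace X] [CompactSpace X] [T2Space X] [TotallyDisconnectedSpace X]

/-- good sets can locally be chosen depending on countably many coordinates -/
theorem star (Psi : LocallyConstant X T → (Ω → I) → ℝ) (hPsi : ∀ f, Continuous (Psi f))
    (hfin : ∀ y f₀ ε, 0 < ε → ∃ F : Finset X, Good Psi y f₀ ε F)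
    (f₀ : LocallyConstant X T) (ε : ℝ) (hε : 0 < ε) (O : Set (Ω → I)) (hO : IsOpen O)
    (hne : O.Nonempty) :
    ∃ O' ⊆ O, IsOpen O' ∧ O'.Nonempty ∧ ∃ s : Set Ω, s.Countable ∧
      ∀ y ∈ O', ∃ F : Finset X, ∀ w ∈ O', (∀ c ∈ s, w c = y c) → Good Psi w f₀ ε F := by
  classical
  obtain ⟨n, ε₁, he0, he1, O₁, h1, h2, h3, h4, M, hM⟩ :=
    exists_bounded_good Psi hPsi hfin f₀ ε hε O hO hne
  obtain ⟨O', g1, g2, g3, s, hs, g4⟩ := exists_countable_support_selection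
    {p : (Ω → I) × (Fin n → X) | Good Psi p.1 f₀ ε₁ (range p.2)}
    (isClosed_good Psi hPsi f₀ ε₁ n) O₁ h2 h3 (fun y hy => h4 y hy) M (fun y hy => hM y hy)
  refine ⟨O', g1.trans h1, g2, g3, s, hs, ?_⟩
  intro y hy
  obtain ⟨x, hx⟩ := g4 y hy
  refine ⟨Finset.univ.image x, fun w hw hws => ?_⟩
  have : Good Psi w f₀ ε₁ (range x) := hx w hw hws
  refine this.mono ?_ he1.le
  simp

/-- the data attached to a countable set -/
theorem exists_data (Psi : LocallyConstant X T → (Ω → I) → ℝ) (hPsi : ∀ f, Continuous (Psi f))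
    (hfin : ∀ y f₀ ε, 0 < ε → ∃ F : Finset X, Good Psi y f₀ ε F) (Q : Set (Ω → I))
    (hQ : Dense Q) (α : Set Ω)
    (h : ∃ f, ∃ y y' : Ω → I, (∀ c ∈ α, y' c = y c) ∧ Psi f y ≠ Psi f y') :
    ∃ f : LocallyConstant X T, ∃ t₀ t₁ : ℚ, ∃ q : Q, ∃ q' : Ω → I, ∃ s : Set Ω,
      ∃ F F' : Finset X, (∀ c ∈ α, q' c = (q : Ω → I) c) ∧ (t₁ : ℝ) < Psi f q' ∧
        Good Psi q' f ((t₁ - t₀)/2) F' ∧ s.Countable ∧
        ∀ w : Ω → I, (∀ c ∈ s, w c = (q : Ω → I) c) →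
          Psi f w < t₀ ∧ Good Psi w f ((t₁ - t₀)/2) F := by
  classical
  -- wlog the first value is smaller
  have h' : ∃ f, ∃ y y' : Ω → I, (∀ c ∈ α, y' c = y c) ∧ Psi f y < Psi f y' := by
    obtain ⟨f, y, y', hag, hne⟩ := h
    rcases lt_or_gt_of_ne hne with h | h
    · exact ⟨f, y, y', hag, h⟩
    · exact ⟨f, y', y, fun c hc => (hag c hc).symm, h⟩
  obtain ⟨f, y, y', hag, hlt⟩ := h'
  obtain ⟨t₀, ht0, ht0'⟩ := exists_rat_btwn hlt
  obtain ⟨t₁, ht1, ht1'⟩ := exists_rat_btwn ht0'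
  have ht : (0:ℝ) < ((t₁ - t₀)/2 : ℝ) := by linarith
  let G : Set (Ω → I) := {w | Psi f w < t₀} ∩ (mix α y') ⁻¹' {w | (t₁:ℝ) < Psi f w}
  have hG : IsOpen G := by
    refine IsOpen.inter ?_ (IsOpen.preimage (continuous_mix α y') ?_)
    · exact isOpen_lt (hPsi f) continuous_const
    · exact isOpen_lt continuous_const (hPsi f)
  have hyG : y ∈ G := by
    refine ⟨ht0, ?_⟩
    show (t₁:ℝ) < Psi f (mix α y' y)
    rw [mix_eq_of_agree hag]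
    exact ht1'
  obtain ⟨O', g1, g2, g3, s, hs, g4⟩ := star Psi hPsi hfin f _ ht G hG ⟨y, hyG⟩
  obtain ⟨q, hqO, hqQ⟩ := hQ.inter_open_nonempty O' g2 g3
  obtain ⟨a, ha⟩ := exists_finset_of_mem_open g2 hqO
  obtain ⟨F, hF⟩ := g4 q hqO
  obtain ⟨F', hF'⟩ := hfin (mix α y' q) f _ ht
  refine ⟨f, t₀, t₁, ⟨q, hqQ⟩, mix α y' q, s ∪ a, F, F', ?_, (g1 hqO).2, hF', ?_, ?_⟩
  · intro c hc
    exact mix_mem hc
  · exact hs.union a.countable_toSet
  · intro w hw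
    have hwO : w ∈ O' := ha w fun c hc => hw c (Or.inr hc)
    exact ⟨(g1 hwO).1, hF w hwO fun c hc => hw c (Or.inl hc)⟩

/-- Countable support theorem. -/
theorem countable_support [Countable T] (Psi : LocallyConstant X T → (Ω → I) → ℝ)
    (hPsi : ∀ f, Continuous (Psi f))
    (hfin : ∀ y f₀ ε, 0 < ε → ∃ F : Finset X, Good Psi y f₀ ε F) :
    ∃ α : Set Ω, α.Countable ∧ ∀ f, ∀ y y' : Ω → I, (∀ c ∈ α, y' c = y c) →
      Psi f y = Psi f y' := by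
  classical
  by_contra hcon
  push Not at hcon
  obtain ⟨Q, hQc, hQd⟩ := exists_countable_dense (Ω → I)
  haveI : Countable Q := hQc.to_subtype
  have hdata : ∀ α : Set Ω, ∃ f : LocallyConstant X T, ∃ t₀ t₁ : ℚ, ∃ q : Q, ∃ q' : Ω → I,
      ∃ s : Set Ω, ∃ F F' : Finset X, α.Countable → ((∀ c ∈ α, q' c = (q : Ω → I) c) ∧
        (t₁ : ℝ) < Psi f q' ∧ Good Psi q' f ((t₁ - t₀)/2) F' ∧ s.Countable ∧
        ∀ w : Ω → I, (∀ c ∈ s, w c = (q : Ω → I) c) →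
          Psi f w < t₀ ∧ Good Psi w f ((t₁ - t₀)/2) F) := by
    intro α
    by_cases hα : α.Countable
    · obtain ⟨f, t₀, t₁, q, q', s, F, F', h⟩ := exists_data Psi hPsi hfin Q hQd α (hcon α hα)
      exact ⟨f, t₀, t₁, q, q', s, F, F', fun _ => h⟩
    · obtain ⟨f, y, y', _, _⟩ := hcon ∅ countable_empty
      obtain ⟨q, hq⟩ := hQd.nonempty_iff.2 ⟨y⟩
      exact ⟨f, 0, 0, ⟨q, hq⟩, y, ∅, ∅, ∅, fun h => absurd h hα⟩
  choose f t₀ t₁ q q' s F F' hd using hdata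
  have hA0 : Cof {α : Set Ω | α.Countable} := fun β hβ => ⟨β, hβ, Subset.rfl⟩
  obtain ⟨⟨q₀, r₀, r₁⟩, hA1⟩ := hA0.pigeon (fun α => (q α, t₀ α, t₁ α))
  obtain ⟨A₂, hA21, hA2, R, hR⟩ := hA1.exists_root F
  obtain ⟨A₃, hA32, hA3, R', hR'⟩ := hA2.exists_root F'
  obtain ⟨g, hA4⟩ := hA3.pigeon (fun α => fun x : R => f α x)
  -- the family `A₄`
  set A₄ : Set (Set Ω) := {α | α ∈ A₃ ∧ (fun x : R => f α x) = g} with hA4def
  have hR4 : ∀ x, x ∉ R → ¬ Cof {α | α ∈ A₄ ∧ x ∈ F α} := by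
    intro x hx hcof
    refine hR x hx fun β hβ => ?_
    obtain ⟨α, ⟨hα, hxα⟩, hsub⟩ := hcof β hβ
    exact ⟨α, ⟨hA32 hα.1, hxα⟩, hsub⟩
  have hR4' : ∀ x, x ∉ R' → ¬ Cof {α | α ∈ A₄ ∧ x ∈ F' α} := by
    intro x hx hcof
    refine hR' x hx fun β hβ => ?_
    obtain ⟨α, ⟨hα, hxα⟩, hsub⟩ := hcof β hβ
    exact ⟨α, ⟨hα.1, hxα⟩, hsub⟩
  have hmem : ∀ α ∈ A₄, α.Countable ∧ q α = q₀ ∧ t₀ α = r₀ ∧ t₁ α = r₁ ∧
      ∀ x : R, f α x = g x := by
    intro α hα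
    have h1 := hA21 (hA32 hα.1)
    have h2 : (q α, t₀ α, t₁ α) = (q₀, r₀, r₁) := h1.2
    rw [Prod.mk.injEq, Prod.mk.injEq] at h2
    exact ⟨h1.1, h2.1, h2.2.1, h2.2.2, fun x => congrFun hα.2 x⟩
  -- choose `α`
  obtain ⟨α, hα, -, hαF⟩ := hA4.exists_avoid F (R' \ R)
    (fun x hx => hR4 x (Finset.mem_sdiff.1 hx).2) ∅ countable_empty
  obtain ⟨hαc, hαq, hα0, hα1, hαg⟩ := hmem α hα
  obtain ⟨-, -, -, hsc, hsα⟩ := hd α hαc
  -- choose `α'`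
  obtain ⟨α', hα', hsub, hα'F⟩ := hA4.exists_avoid F' (F α \ R')
    (fun x hx => hR4' x (Finset.mem_sdiff.1 hx).2) (s α) hsc
  obtain ⟨hα'c, hα'q, hα'0, hα'1, hα'g⟩ := hmem α' hα'
  obtain ⟨hq', ht1, hgood', -, -⟩ := hd α' hα'c
  obtain ⟨hlt, hgood⟩ := hsα (q' α') (fun c hc => by
    rw [hq' c (hsub hc), hα'q, hαq])
  obtain ⟨h, hh1, hh2⟩ := glue (f α) (f α') (F α) (F' α') (by
    intro x hx hx'
    have hxR' : x ∈ R' := by
      by_contra hn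
      exact hα'F x (Finset.mem_sdiff.2 ⟨hx, hn⟩) hx'
    have hxR : x ∈ R := by
      by_contra hn
      exact hαF x (Finset.mem_sdiff.2 ⟨hxR', hn⟩) hx
    rw [hαg ⟨x, hxR⟩, hα'g ⟨x, hxR⟩])
  have e1 := hgood h (fun x hx => hh1 x hx)
  have e2 := hgood' h (fun x hx => hh2 x hx)
  rw [hα0, hα1] at e1
  rw [hα'0, hα'1] at e2
  rw [hα0] at hlt
  rw [hα'1] at ht1
  have e3 := abs_le.1 e1
  have e4 := abs_le.1 e2
  linarith [e3.1, e3.2, e4.1, e4.2]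

end main

end Pool.Agent.H36
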