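import Mathlib

/-!
# Good finite sets for functionals on locally constant functions

`X` compact zero-dimensional, `Y` compact Hausdorff, `T` any type.
`Psi : LocallyConstant X T → Y → ℝ`.
-/

set_option autoImplicit false
set_option linter.unusedSectionVars false

namespace Pool.Agent.H36

open Set TopologicalSpace

variable {X Y T : Type} [TopologicalSpace X] [TopologicalSpace Y]

/-- `F` is good for `(y, f₀, ε)` when `f = f₀` on `F` forces `|Ψ f y - Ψ f₀ y| ≤ ε`. -/
def Good (Psi : LocallyConstant X T → Y → ℝ) (y : Y) (f₀ : LocallyConstant X T) (ε : ℝ)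
    (F : Set X) : Prop :=
  ∀ f : LocallyConstant X T, (∀ x ∈ F, f x = f₀ x) → |Psi f y - Psi f₀ y| ≤ ε

theorem Good.mono {Psi : LocallyConstant X T → Y → ℝ} {y : Y} {f₀ : LocallyConstant X T}
    {ε ε' : ℝ} {F F' : Set X} (h : Good Psi y f₀ ε F) (hF : F ⊆ F') (he : ε ≤ ε') :
    Good Psi y f₀ ε' F' := fun f hf => (h f fun x hx => hf x (hF hx)).trans he

/-- Gluing two locally constant functions which agree on the intersection of two finite sets. -/
theorem glue [CompactSpace X] [T2Space X] [TotallyDisconnectedSpace X]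
    (f g : LocallyConstant X T) (E F : Finset X)
    (hfg : ∀ x ∈ E, x ∈ F → f x = g x) :
    ∃ h : LocallyConstant X T, (∀ x ∈ E, h x = f x) ∧ (∀ x ∈ F, h x = g x) := by
  classical
  -- clopen `V` containing `E` and missing `F \ E`
  have hV : ∃ V : Set X, IsClopen V ∧ (∀ x ∈ E, x ∈ V) ∧ (∀ x ∈ F, x ∉ E → x ∉ V) := by
    have hU : IsOpen ((↑(F \ E) : Set X)ᶜ) := (Finset.finite_toSet _).isClosed.isOpen_compl
    have hx : ∀ x : X, ∃ V : Set X, IsClopen V ∧ (x ∈ E → x ∈ V) ∧ V ⊆ ((↑(F \ E) : Set X)ᶜ) := by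
      intro x
      by_cases hxE : x ∈ E
      · obtain ⟨V, hV, hxV, hVU⟩ := compact_exists_isClopen_in_isOpen hU
          (show x ∈ ((↑(F \ E) : Set X)ᶜ) by simp [hxE])
        exact ⟨V, hV, fun _ => hxV, hVU⟩
      · exact ⟨∅, isClopen_empty, fun h => absurd h hxE, empty_subset _⟩
    choose V hVc hVx hVU using hx
    refine ⟨⋃ x ∈ E, V x, ?_, ?_, ?_⟩
    · exact isClopen_biUnion_finset fun x _ => hVc x
    · intro x hx
      exact mem_biUnion hx (hVx x hx)
    · intro x hxF hxE hxV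
      obtain ⟨z, hz, hxz⟩ := mem_iUnion₂.1 hxV
      have := hVU z hxz
      simp only [Finset.coe_sdiff, mem_compl_iff, mem_sdiff, Finset.mem_coe, not_and, not_not] at this
      exact hxE (this hxF)
  obtain ⟨V, hV, hVE, hVF⟩ := hV
  refine ⟨⟨fun x => if x ∈ V then f x else g x, ?_⟩, ?_, ?_⟩
  · rw [IsLocallyConstant.iff_exists_open]
    intro x
    by_cases hx : x ∈ V
    · obtain ⟨U, hU, hxU, hc⟩ := (IsLocallyConstant.iff_exists_open _).1 f.isLocallyConstant x
      refine ⟨U ∩ V, hU.inter hV.isOpen, ⟨hxU, hx⟩, ?_⟩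
      rintro z ⟨hzU, hzV⟩
      simp only [hzV, hx, if_true]
      exact hc z hzU
    · obtain ⟨U, hU, hxU, hc⟩ := (IsLocallyConstant.iff_exists_open _).1 g.isLocallyConstant x
      refine ⟨U ∩ Vᶜ, hU.inter hV.compl.isOpen, ⟨hxU, hx⟩, ?_⟩
      rintro z ⟨hzU, hzV⟩
      have hzV' : z ∉ V := hzV
      simp only [hzV', hx, if_false]
      exact hc z hzU
  · intro x hx
    show (if x ∈ V then f x else g x) = f x
    rw [if_pos (hVE x hx)]
  · intro x hx
    show (if x ∈ V then f x else g x) = g x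
    by_cases hxV : x ∈ V
    · rw [if_pos hxV]
      by_cases hxE : x ∈ E
      · exact hfg x hxE hx
      · exact absurd hxV (hVF x hx hxE)
    · rw [if_neg hxV]

/-- The set of pairs `(y, x)` with `range x` good is closed. -/
theorem isClosed_good (Psi : LocallyConstant X T → Y → ℝ) (hPsi : ∀ f, Continuous (Psi f))
    (f₀ : LocallyConstant X T) (ε : ℝ) (n : ℕ) :
    IsClosed {p : Y × (Fin n → X) | Good Psi p.1 f₀ ε (range p.2)} := by
  have : {p : Y × (Fin n → X) | Good Psi p.1 f₀ ε (range p.2)} =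
      ⋂ f : LocallyConstant X T,
        ({p : Y × (Fin n → X) | ∀ i, f (p.2 i) = f₀ (p.2 i)}ᶜ ∪
          {p : Y × (Fin n → X) | |Psi f p.1 - Psi f₀ p.1| ≤ ε}) := by
    ext p
    simp only [Good, mem_ofPred_eq, mem_iInter, mem_union, mem_compl_iff, forall_mem_range]
    constructor
    · intro h f
      by_cases hf : ∀ i, f (p.2 i) = f₀ (p.2 i)
      · exact Or.inr (h f hf)
      · exact Or.inl hf
    · intro h f hf
      rcases h f with h | h
      · exact absurd hf h
      · exact h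
  rw [this]
  refine isClosed_iInter fun f => IsClosed.union ?_ ?_
  · rw [isClosed_compl_iff]
    have : {p : Y × (Fin n → X) | ∀ i, f (p.2 i) = f₀ (p.2 i)} =
        ⋂ i, (fun p : Y × (Fin n → X) => p.2 i) ⁻¹' {x | f x = f₀ x} := by
      ext p; simp
    rw [this]
    refine isOpen_iInter_of_finite fun i => ?_
    have hopen : IsOpen {x | f x = f₀ x} := by
      rw [isOpen_iff_forall_mem_open]
      intro x hx
      obtain ⟨U, hU, hxU, hc⟩ := (IsLocallyConstant.iff_exists_open _).1 f.isLocallyConstant x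
      obtain ⟨U', hU', hxU', hc'⟩ := (IsLocallyConstant.iff_exists_open _).1 f₀.isLocallyConstant x
      refine ⟨U ∩ U', ?_, hU.inter hU', hxU, hxU'⟩
      rintro z ⟨hz, hz'⟩
      show f z = f₀ z
      have h1 : f z = f x := hc z hz
      have h2 : f₀ z = f₀ x := hc' z hz'
      rw [h1, h2]
      exact hx
    exact hopen.preimage ((continuous_apply i).comp continuous_snd)
  · exact isClosed_le ((((hPsi f).comp continuous_fst).sub ((hPsi f₀).comp continuous_fst)).abs)
      continuous_const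

/-- Baire category in the form used below. -/
theorem baire_cover [BaireSpace Y] {ι : Type} [Countable ι] (C : ι → Set Y)
    (hC : ∀ i, IsClosed (C i)) (O : Set Y) (hO : IsOpen O) (hne : O.Nonempty)
    (hcov : O ⊆ ⋃ i, C i) :
    ∃ i, ∃ O' ⊆ O, IsOpen O' ∧ O'.Nonempty ∧ O' ⊆ C i := by
  let D : Option ι → Set Y := fun o => o.elim Oᶜ C
  have hD : ∀ o, IsClosed (D o) := by
    intro o
    cases o with
    | none => exact hO.isClosed_compl
    | some i => exact hC i
  have hU : (⋃ o, D o) = univ := by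
    rw [eq_univ_iff_forall]
    intro y
    by_cases hy : y ∈ O
    · obtain ⟨i, hi⟩ := mem_iUnion.1 (hcov hy)
      exact mem_iUnion.2 ⟨some i, hi⟩
    · exact mem_iUnion.2 ⟨none, hy⟩
  have hdense := dense_iUnion_interior_of_closed hD hU
  obtain ⟨y, hyO, hy⟩ := hdense.inter_open_nonempty O hO hne
  obtain ⟨o, ho⟩ := mem_iUnion.1 hy
  cases o with
  | none =>
    exact absurd hyO (interior_subset ho)
  | some i =>
    exact ⟨i, O ∩ interior (C i), inter_subset_left, hO.inter isOpen_interior, ⟨y, hyO, ho⟩,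
      inter_subset_right.trans interior_subset⟩

variable [CompactSpace X] [T2Space X] [TotallyDisconnectedSpace X]

/-- projection of the good set is closed -/
theorem isClosed_exists_good (Psi : LocallyConstant X T → Y → ℝ) (hPsi : ∀ f, Continuous (Psi f))
    (f₀ : LocallyConstant X T) (ε : ℝ) (n : ℕ) :
    IsClosed {y : Y | ∃ x : Fin n → X, Good Psi y f₀ ε (range x)} := by
  have h := isClosedMap_fst_of_compactSpace (X := Y) (Y := Fin n → X) _
    (isClosed_good Psi hPsi f₀ ε n)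
  convert h using 1
  ext y
  simp only [mem_ofPred_eq, mem_image, Prod.exists]
  constructor
  · rintro ⟨x, hx⟩
    exact ⟨y, x, hx, rfl⟩
  · rintro ⟨y', x, hx, rfl⟩
    exact ⟨x, hx⟩

/-- finite sets as ranges -/
theorem finset_eq_range (F : Finset X) : ∃ x : Fin F.card → X, range x = (F : Set X) := by
  refine ⟨fun i => (F.equivFin.symm i : X), ?_⟩
  ext z
  simp only [mem_range, Finset.mem_coe]
  constructor
  · rintro ⟨i, rfl⟩
    exact (F.equivFin.symm i).2
  · intro hz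
    exact ⟨F.equivFin ⟨z, hz⟩, by simp⟩

/-- Lemma 3. -/
theorem exists_uniform_card [BaireSpace Y] (Psi : LocallyConstant X T → Y → ℝ)
    (hPsi : ∀ f, Continuous (Psi f))
    (hfin : ∀ y f₀ ε, 0 < ε → ∃ F : Finset X, Good Psi y f₀ ε F)
    (f₀ : LocallyConstant X T) (ε : ℝ) (hε : 0 < ε) (O : Set Y) (hO : IsOpen O)
    (hne : O.Nonempty) :
    ∃ n : ℕ, ∃ O' ⊆ O, IsOpen O' ∧ O'.Nonempty ∧
      ∀ y ∈ O', ∃ x : Fin n → X, Good Psi y f₀ ε (range x) := by
  obtain ⟨n, O', h1, h2, h3, h4⟩ := baire_cover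
    (fun n : ℕ => {y : Y | ∃ x : Fin n → X, Good Psi y f₀ ε (range x)})
    (fun n => isClosed_exists_good Psi hPsi f₀ ε n) O hO hne (by
      intro y _
      obtain ⟨F, hF⟩ := hfin y f₀ ε hε
      obtain ⟨x, hx⟩ := finset_eq_range F
      refine mem_iUnion.2 ⟨F.card, x, ?_⟩
      rw [hx]; exact hF)
  exact ⟨n, O', h1, h2, h3, h4⟩

/-- Lemma 3 for a finite family of functions. -/
theorem exists_uniform_card_family [BaireSpace Y] (Psi : LocallyConstant X T → Y → ℝ)
    (hPsi : ∀ f, Continuous (Psi f))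
    (hfin : ∀ y f₀ ε, 0 < ε → ∃ F : Finset X, Good Psi y f₀ ε F)
    {κ : Type} (t : Finset κ) (f : κ → LocallyConstant X T) (ε : ℝ) (hε : 0 < ε) (O : Set Y)
    (hO : IsOpen O) (hne : O.Nonempty) :
    ∃ n : ℕ, ∃ O' ⊆ O, IsOpen O' ∧ O'.Nonempty ∧
      ∀ y ∈ O', ∀ k ∈ t, ∃ F : Finset X, F.card ≤ n ∧ Good Psi y (f k) ε F := by
  classical
  induction t using Finset.induction_on generalizing O with
  | empty => exact ⟨0, O, Subset.rfl, hO, hne, by simp⟩
  | insert k t hk ih =>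
    obtain ⟨n, O', h1, h2, h3, h4⟩ := ih O hO hne
    obtain ⟨m, O'', g1, g2, g3, g4⟩ := exists_uniform_card Psi hPsi hfin (f k) ε hε O' h2 h3
    refine ⟨max n m, O'', g1.trans h1, g2, g3, ?_⟩
    intro y hy j hj
    rcases Finset.mem_insert.1 hj with rfl | hj
    · obtain ⟨x, hx⟩ := g4 y hy
      refine ⟨Finset.univ.image x, ?_, ?_⟩
      · refine (Finset.card_image_le).trans ?_
        simp
      · convert hx using 1
        simp
    · obtain ⟨F, hF, hF'⟩ := h4 y (g1 hy) j hj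
      exact ⟨F, hF.trans (le_max_left _ _), hF'⟩

/-- Lemma 4: minimal number of points. -/
theorem exists_minimal_card [BaireSpace Y] (Psi : LocallyConstant X T → Y → ℝ)
    (hPsi : ∀ f, Continuous (Psi f))
    (hfin : ∀ y f₀ ε, 0 < ε → ∃ F : Finset X, Good Psi y f₀ ε F)
    (f₀ : LocallyConstant X T) (ε : ℝ) (hε : 0 < ε) (O : Set Y) (hO : IsOpen O)
    (hne : O.Nonempty) :
    ∃ n : ℕ, ∃ ε₁ ε₂ : ℝ, 0 < ε₁ ∧ ε₁ < ε₂ ∧ ε₂ < ε ∧ ∃ O' ⊆ O, IsOpen O' ∧ O'.Nonempty ∧
      (∀ y ∈ O', ∃ x : Fin n → X, Good Psi y f₀ ε₁ (range x)) ∧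
      (∀ y ∈ O', ∀ F : Finset X, F.card < n → ¬ Good Psi y f₀ ε₂ F) := by
  classical
  let p : ℕ → Prop := fun n => ∃ ε₁ : ℝ, 0 < ε₁ ∧ ε₁ < ε ∧ ∃ O' ⊆ O, IsOpen O' ∧ O'.Nonempty ∧
      (∀ y ∈ O', ∃ x : Fin n → X, Good Psi y f₀ ε₁ (range x))
  have hp : ∃ n, p n := by
    obtain ⟨n, O', h1, h2, h3, h4⟩ :=
      exists_uniform_card Psi hPsi hfin f₀ (ε/2) (by linarith) O hO hne
    exact ⟨n, ε/2, by linarith, by linarith, O', h1, h2, h3, h4⟩
  obtain ⟨ε₁, he0, he1, O', h1, h2, h3, h4⟩ := Nat.find_spec hp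
  set n := Nat.find hp with hn
  have hmin : ∀ m < n, ¬ p m := fun m hm => Nat.find_min hp hm
  let C : Fin n → Set Y := fun m => {y : Y | ∃ x : Fin m → X, Good Psi y f₀ ((ε₁+ε)/2) (range x)}
  have hC : ∀ m, IsClosed (C m) := fun m => isClosed_exists_good Psi hPsi f₀ _ m
  have hnot : ¬ (O' ⊆ ⋃ m, C m) := by
    intro hsub
    obtain ⟨m, O'', g1, g2, g3, g4⟩ := baire_cover C hC O' h2 h3 hsub
    exact hmin m m.2 ⟨(ε₁+ε)/2, by linarith, by linarith, O'', g1.trans h1, g2, g3,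
      fun y hy => g4 hy⟩
  refine ⟨n, ε₁, (ε₁+ε)/2, he0, by linarith, by linarith, O' \ ⋃ m, C m, ?_, ?_, ?_, ?_, ?_⟩
  · exact sdiff_subset.trans h1
  · exact h2.sdiff (isClosed_iUnion_of_finite hC)
  · exact sdiff_nonempty.2 hnot
  · intro y hy
    exact h4 y hy.1
  · intro y hy F hF hgood
    apply hy.2
    obtain ⟨x, hx⟩ := finset_eq_range F
    refine mem_iUnion.2 ⟨⟨F.card, hF⟩, x, ?_⟩
    rw [hx]
    exact hgood

/-- Lemma 5: boundedly many good tuples. -/
theorem exists_bounded_good [BaireSpace Y] (Psi : LocallyConstant X T → Y → ℝ)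
    (hPsi : ∀ f, Continuous (Psi f))
    (hfin : ∀ y f₀ ε, 0 < ε → ∃ F : Finset X, Good Psi y f₀ ε F)
    (f₀ : LocallyConstant X T) (ε : ℝ) (hε : 0 < ε) (O : Set Y) (hO : IsOpen O)
    (hne : O.Nonempty) :
    ∃ n : ℕ, ∃ ε₁ : ℝ, 0 < ε₁ ∧ ε₁ < ε ∧ ∃ O' ⊆ O, IsOpen O' ∧ O'.Nonempty ∧
      (∀ y ∈ O', ∃ x : Fin n → X, Good Psi y f₀ ε₁ (range x)) ∧
      ∃ M : ℕ, ∀ y ∈ O', ∃ S : Finset (Fin n → X), S.card ≤ M ∧
        ∀ x : Fin n → X, Good Psi y f₀ ε₁ (range x) → x ∈ S := by
  classical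
  obtain ⟨n, ε₁, ε₂, he0, he1, he2, O₁, h1, h2, h3, h4, h5⟩ :=
    exists_minimal_card Psi hPsi hfin f₀ ε hε O hO hne
  obtain ⟨y₀, hy₀⟩ := h3
  -- local data
  have key : ∀ x : Fin n → X, ∃ V : Set (Fin n → X), ∃ N : Set Y,
      ∃ g : Fin n → LocallyConstant X T, IsOpen V ∧ x ∈ V ∧ IsOpen N ∧ y₀ ∈ N ∧
      ∀ y ∈ N, ∀ x' ∈ V, Good Psi y f₀ ε₁ (range x') →
        ∀ i, (∀ j, j ≠ i → g i (x' j) = f₀ (x' j)) ∧ ε₂ < |Psi (g i) y - Psi f₀ y| := by
    intro x
    by_cases hx : Good Psi y₀ f₀ ε₁ (range x)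
    · have hg : ∀ i : Fin n, ∃ g : LocallyConstant X T,
          (∀ j, j ≠ i → g (x j) = f₀ (x j)) ∧ ε₂ < |Psi g y₀ - Psi f₀ y₀| := by
        intro i
        have hcard : ((Finset.univ.erase i).image x).card < n := by
          refine lt_of_le_of_lt Finset.card_image_le ?_
          rw [Finset.card_erase_of_mem (Finset.mem_univ i), Finset.card_fin]
          have : 0 < n := i.pos
          omega
        have := h5 y₀ hy₀ _ hcard
        unfold Good at this
        push Not at this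
        obtain ⟨g, hg1, hg2⟩ := this
        refine ⟨g, fun j hj => hg1 (x j) ?_, hg2⟩
        simp only [Finset.coe_image, mem_image, Finset.mem_coe, Finset.mem_erase]
        exact ⟨j, ⟨hj, Finset.mem_univ j⟩, rfl⟩
      choose g hg1 hg2 using hg
      refine ⟨{x' | ∀ i j, j ≠ i → g i (x' j) = f₀ (x' j)},
        {y | ∀ i, ε₂ < |Psi (g i) y - Psi f₀ y|}, g, ?_, ?_, ?_, ?_, ?_⟩
      · have : {x' : Fin n → X | ∀ i j, j ≠ i → g i (x' j) = f₀ (x' j)} =
            ⋂ i, ⋂ j, {x' : Fin n → X | j ≠ i → g i (x' j) = f₀ (x' j)} := by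
          ext x'; simp
        rw [this]
        refine isOpen_iInter_of_finite fun i => isOpen_iInter_of_finite fun j => ?_
        by_cases hij : j = i
        · simp [hij]
        · simp only [ne_eq, hij, not_false_eq_true, true_implies]
          have hopen : IsOpen {z | g i z = f₀ z} := by
            rw [isOpen_iff_forall_mem_open]
            intro z hz
            obtain ⟨U, hU, hxU, hc⟩ :=
              (IsLocallyConstant.iff_exists_open _).1 (g i).isLocallyConstant z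
            obtain ⟨U', hU', hxU', hc'⟩ :=
              (IsLocallyConstant.iff_exists_open _).1 f₀.isLocallyConstant z
            refine ⟨U ∩ U', ?_, hU.inter hU', hxU, hxU'⟩
            rintro w ⟨hw, hw'⟩
            show g i w = f₀ w
            have h1 : g i w = g i z := hc w hw
            have h2 : f₀ w = f₀ z := hc' w hw'
            rw [h1, h2]
            exact hz
          have hcj : Continuous (fun x' : Fin n → X => x' j) := continuous_apply j
          exact hopen.preimage hcj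
      · intro i j hij
        exact hg1 i j hij
      · have : {y | ∀ i, ε₂ < |Psi (g i) y - Psi f₀ y|} =
            ⋂ i, {y | ε₂ < |Psi (g i) y - Psi f₀ y|} := by
          ext y; simp
        rw [this]
        exact isOpen_iInter_of_finite fun i =>
          isOpen_lt continuous_const (((hPsi (g i)).sub (hPsi f₀)).abs)
      · intro i
        exact hg2 i
      · intro y hy x' hx' _ i
        exact ⟨fun j hj => hx' i j hj, hy i⟩
    · have hclosed := isClosed_good Psi hPsi f₀ ε₁ n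
      have hmem : (y₀, x) ∈ {p : Y × (Fin n → X) | Good Psi p.1 f₀ ε₁ (range p.2)}ᶜ := hx
      obtain ⟨N, V, hN, hV, hyN, hxV, hsub⟩ :=
        isOpen_prod_iff.1 hclosed.isOpen_compl y₀ x hmem
      refine ⟨V, N, fun _ => f₀, hV, hxV, hN, hyN, ?_⟩
      intro y hy x' hx' hgood
      exact absurd hgood (hsub (mk_mem_prod hy hx'))
  choose V N g hVo hxV hNo hyN hprop using key
  obtain ⟨t, ht⟩ := isCompact_univ.elim_finite_subcover V hVo
    (fun x _ => mem_iUnion.2 ⟨x, hxV x⟩)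
  have hNopen : IsOpen (O₁ ∩ ⋂ x ∈ t, N x) :=
    h2.inter (isOpen_biInter_finset fun x _ => hNo x)
  have hNne : (O₁ ∩ ⋂ x ∈ t, N x).Nonempty :=
    ⟨y₀, hy₀, mem_iInter₂.2 fun x _ => hyN x⟩
  obtain ⟨m, O₂, k1, k2, k3, k4⟩ := exists_uniform_card_family Psi hPsi hfin
    (κ := (Fin n → X) × Fin n) (t ×ˢ Finset.univ) (fun p => g p.1 p.2) (ε₂ - ε₁) (by linarith)
    _ hNopen hNne
  refine ⟨n, ε₁, he0, by linarith, O₂, (k1.trans inter_subset_left).trans h1, k2, k3,
    fun y hy => h4 y (k1 hy).1, t.card * m ^ n, ?_⟩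
  intro y hy
  have hF : ∀ p : (Fin n → X) × Fin n, ∃ F : Finset X, F.card ≤ m ∧
      (p.1 ∈ t → Good Psi y (g p.1 p.2) (ε₂ - ε₁) F) := by
    intro p
    by_cases hp : p.1 ∈ t
    · obtain ⟨F, hF1, hF2⟩ := k4 y hy p (by simp [hp])
      exact ⟨F, hF1, fun _ => hF2⟩
    · exact ⟨∅, by simp, fun h => absurd h hp⟩
  choose F hFc hFg using hF
  refine ⟨t.biUnion fun x => Fintype.piFinset fun i => F (x, i), ?_, ?_⟩
  · refine Finset.card_biUnion_le_card_mul _ _ _ ?_
    intro x _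
    rw [Fintype.card_piFinset]
    calc ∏ i : Fin n, (F (x, i)).card ≤ ∏ _i : Fin n, m :=
          Finset.prod_le_prod (fun i _ => Nat.zero_le _) (fun i _ => hFc (x, i))
      _ = m ^ n := by simp
  · intro x' hx'
    obtain ⟨x, hxt, hx'V⟩ := mem_iUnion₂.1 (ht (mem_univ x'))
    rw [Finset.mem_biUnion]
    refine ⟨x, hxt, ?_⟩
    rw [Fintype.mem_piFinset]
    intro i
    by_contra hnot
    have hyN' : y ∈ N x := mem_iInter₂.1 (k1 hy).2 x hxt
    obtain ⟨hag, hbig⟩ := hprop x y hyN' x' hx'V hx' i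
    obtain ⟨h, hh1, hh2⟩ := glue f₀ (g x i) (Finset.univ.image x') (F (x, i)) (by
      intro z hz hzF
      rw [Finset.mem_image] at hz
      obtain ⟨j, _, rfl⟩ := hz
      by_cases hji : j = i
      · subst hji; exact absurd hzF hnot
      · exact (hag j hji).symm)
    have e1 : |Psi h y - Psi f₀ y| ≤ ε₁ := hx' h (by
      rintro _ ⟨j, rfl⟩
      exact hh1 _ (Finset.mem_image_of_mem _ (Finset.mem_univ j)))
    have e2 : |Psi h y - Psi (g x i) y| ≤ ε₂ - ε₁ := hFg (x, i) hxt h (fun z hz => hh2 z hz)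
    have e3 : |Psi (g x i) y - Psi f₀ y| ≤ |Psi h y - Psi (g x i) y| + |Psi h y - Psi f₀ y| := by
      have : Psi (g x i) y - Psi f₀ y = -(Psi h y - Psi (g x i) y) + (Psi h y - Psi f₀ y) := by ring
      rw [this]
      refine (abs_add_le _ _).trans ?_
      rw [abs_neg]
    linarith

end Pool.Agent.H36
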