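import Mathlib

/-!
# Closed multifunctions on cubes with boundedly many values

`Y = Ω → [0,1]` separable, `Z` compact zero-dimensional, `P ⊆ Y × Z` closed with nonempty
fibres of at most `M` points over an open set.  Then on a smaller open set there is a countable
set `s` of coordinates such that the fibres over each slice `y|s = const` have a common point.
-/

set_option autoImplicit false
set_option linter.unusedSectionVars false

namespace Pool.Agent.H36

open Set TopologicalSpace unitInterval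

section general

variable {Y Z : Type} [TopologicalSpace Y] [TopologicalSpace Z]

/-- points whose fibre meets `V` -/
def Cset (P : Set (Y × Z)) (V : Set Z) : Set Y := {y | ∃ x ∈ V, (y, x) ∈ P}

/-- regularisation of `Cset` -/
def Rset (P : Set (Y × Z)) (V : Set Z) : Set Y := closure (interior (Cset P V))

variable [CompactSpace Z]

theorem isClosed_Cset {P : Set (Y × Z)} (hP : IsClosed P) {V : Set Z} (hV : IsClosed V) :
    IsClosed (Cset P V) := by
  have h := isClosedMap_fst_of_compactSpace (X := Y) (Y := Z) _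
    (hP.inter (hV.preimage continuous_snd))
  convert h using 1
  ext y
  simp only [Cset, mem_ofPred_eq, mem_image, Prod.exists, mem_inter_iff, mem_preimage]
  constructor
  · rintro ⟨x, hx, hxP⟩
    exact ⟨y, x, ⟨hxP, hx⟩, rfl⟩
  · rintro ⟨y', x, ⟨hxP, hx⟩, rfl⟩
    exact ⟨x, hx, hxP⟩

theorem Rset_subset {P : Set (Y × Z)} (hP : IsClosed P) {V : Set Z} (hV : IsClosed V) :
    Rset P V ⊆ Cset P V :=
  closure_minimal interior_subset (isClosed_Cset hP hV)

theorem Rset_mono {P : Set (Y × Z)} {V W : Set Z} (h : V ⊆ W) : Rset P V ⊆ Rset P W :=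
  closure_mono (interior_mono fun _ ⟨x, hx, hxP⟩ => ⟨x, h hx, hxP⟩)

theorem isClosed_Rset {P : Set (Y × Z)} {V : Set Z} : IsClosed (Rset P V) := isClosed_closure

theorem Rset_union {P : Set (Y × Z)} (hP : IsClosed P) {V W : Set Z} (hV : IsClosed V) :
    Rset P (V ∪ W) ⊆ Rset P V ∪ Rset P W := by
  intro y hy
  by_contra hn
  rw [mem_union, not_or] at hn
  obtain ⟨h1, h2⟩ := hn
  have hN : IsOpen ((Rset P V)ᶜ ∩ (Rset P W)ᶜ) :=
    isClosed_Rset.isOpen_compl.inter isClosed_Rset.isOpen_compl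
  obtain ⟨z, ⟨hz1, hz2⟩, hz3⟩ := mem_closure_iff.1 hy _ hN ⟨h1, h2⟩
  -- the open set where only `W` can be met
  have hG : IsOpen (((Rset P V)ᶜ ∩ (Rset P W)ᶜ) ∩ interior (Cset P (V ∪ W)) ∩ (Cset P V)ᶜ) :=
    (hN.inter isOpen_interior).inter (isClosed_Cset hP hV).isOpen_compl
  have hGsub : (((Rset P V)ᶜ ∩ (Rset P W)ᶜ) ∩ interior (Cset P (V ∪ W)) ∩ (Cset P V)ᶜ) ⊆
      Cset P W := by
    rintro w ⟨⟨_, hw2⟩, hw3⟩
    obtain ⟨x, hx | hx, hxP⟩ := interior_subset hw2
    · exact absurd ⟨x, hx, hxP⟩ hw3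
    · exact ⟨x, hx, hxP⟩
  have hGempty : (((Rset P V)ᶜ ∩ (Rset P W)ᶜ) ∩ interior (Cset P (V ∪ W)) ∩ (Cset P V)ᶜ) = ∅ := by
    rw [eq_empty_iff_forall_notMem]
    intro w hw
    exact hw.1.1.2 (subset_closure (interior_maximal hGsub hG hw))
  have hsub2 : ((Rset P V)ᶜ ∩ (Rset P W)ᶜ) ∩ interior (Cset P (V ∪ W)) ⊆ Cset P V := by
    intro w hw
    by_contra hwV
    have : w ∈ (∅ : Set Y) := by
      rw [← hGempty]
      exact ⟨hw, hwV⟩
    exact this
  exact hz1 (subset_closure (interior_maximal hsub2 (hN.inter isOpen_interior) ⟨⟨hz1, hz2⟩, hz3⟩))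

theorem Rset_empty {P : Set (Y × Z)} : Rset P ∅ = ∅ := by
  have : Cset P (∅ : Set Z) = ∅ := by
    ext y; simp [Cset]
  simp [Rset, this]

theorem Rset_biUnion {P : Set (Y × Z)} (hP : IsClosed P) {ι : Type} (t : Finset ι)
    (V : ι → Set Z) (hV : ∀ i, IsClosed (V i)) :
    Rset P (⋃ i ∈ t, V i) ⊆ ⋃ i ∈ t, Rset P (V i) := by
  classical
  induction t using Finset.induction_on with
  | empty => simp [Rset_empty]
  | insert i t hi ih =>
    rw [Finset.set_biUnion_insert, Finset.set_biUnion_insert]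
    exact (Rset_union hP (hV i)).trans (union_subset_union Subset.rfl ih)

variable [T2Space Z] [TotallyDisconnectedSpace Z]

/-- from a regularised set to a point of the fibre -/
theorem exists_point_of_mem_Rset {P : Set (Y × Z)} (hP : IsClosed P) {V : Set Z}
    (hV : IsClopen V) {y : Y} (hy : y ∈ Rset P V) :
    ∃ x ∈ V, ∀ W : Set Z, IsClopen W → x ∈ W → y ∈ Rset P W := by
  by_contra hcon
  push Not at hcon
  have : ∀ x : Z, ∃ W : Set Z, IsClopen W ∧ x ∈ W ∧ (x ∈ V → y ∉ Rset P W) := by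
    intro x
    by_cases hx : x ∈ V
    · obtain ⟨W, h1, h2, h3⟩ := hcon x hx
      exact ⟨W, h1, h2, fun _ => h3⟩
    · exact ⟨univ, isClopen_univ, mem_univ _, fun h => absurd h hx⟩
  choose W hW hxW hyW using this
  obtain ⟨t, ht⟩ := (hV.isClosed.isCompact).elim_finite_subcover (fun x : V => W x)
    (fun x => (hW x).isOpen) (fun x hx => mem_iUnion.2 ⟨⟨x, hx⟩, hxW x⟩)
  have h1 : y ∈ Rset P (⋃ i ∈ t, W i) := Rset_mono ht hy
  have h2 := Rset_biUnion hP t (fun x : V => W x) (fun x => (hW x).isClosed) h1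
  obtain ⟨i, _, hi⟩ := mem_iUnion₂.1 h2
  exact hyW i i.2 hi

/-- `k` disjoint clopen sets are met by the regularised fibre at `y` -/
def Sep (P : Set (Y × Z)) (k : ℕ) (y : Y) : Prop :=
  ∃ V : Fin k → Set Z, (∀ i, IsClopen (V i)) ∧ (∀ i j, i ≠ j → Disjoint (V i) (V j)) ∧
    ∀ i, y ∈ Rset P (V i)

end general

section cube

variable {Ω : Type}

/-- changing the coordinates outside of `s` to those of `w` -/
noncomputable def mix (s : Set Ω) (w u : Ω → I) : Ω → I := by
  classical exact fun c => if c ∈ s then u c else w c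

theorem mix_mem {s : Set Ω} {w u : Ω → I} {c : Ω} (h : c ∈ s) : mix s w u c = u c := by
  simp [mix, h]

theorem mix_not_mem {s : Set Ω} {w u : Ω → I} {c : Ω} (h : c ∉ s) : mix s w u c = w c := by
  simp [mix, h]

theorem continuous_mix (s : Set Ω) (w : Ω → I) : Continuous (mix s w) := by
  refine continuous_pi fun c => ?_
  by_cases h : c ∈ s
  · simp only [mix_mem h]
    exact continuous_apply c
  · simp only [mix_not_mem h]
    exact continuous_const

theorem mix_eq_of_agree {s : Set Ω} {w u : Ω → I} (h : ∀ c ∈ s, w c = u c) : mix s w u = w := by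
  funext c
  by_cases hc : c ∈ s
  · rw [mix_mem hc, h c hc]
  · rw [mix_not_mem hc]

/-- an open set determines, near a given point, finitely many coordinates -/
theorem exists_finset_of_mem_open {O : Set (Ω → I)} (hO : IsOpen O) {y : Ω → I} (hy : y ∈ O) :
    ∃ a : Finset Ω, ∀ w : Ω → I, (∀ c ∈ a, w c = y c) → w ∈ O := by
  obtain ⟨a, u, hu, hsub⟩ := isOpen_pi_iff.1 hO y hy
  refine ⟨a, fun w hw => hsub ?_⟩
  intro c hc
  rw [hw c hc]
  exact (hu c hc).2

variable [SeparableSpace (Ω → I)]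

/-- disjoint open sets of a separable cube have disjoint traces on countably many coordinates -/
theorem disjoint_open_dep {G H : Set (Ω → I)} (hG : IsOpen G) (hH : IsOpen H)
    (hGH : Disjoint G H) :
    ∃ s : Set Ω, s.Countable ∧ ∀ y ∈ G, ∀ w ∈ H, ∃ c ∈ s, w c ≠ y c := by
  obtain ⟨Q, hQc, hQd⟩ := exists_countable_dense (Ω → I)
  have : ∀ q : Ω → I, ∃ a : Finset Ω, q ∈ G → ∀ w : Ω → I, (∀ c ∈ a, w c = q c) → w ∈ G := by
    intro q
    by_cases hq : q ∈ G
    · obtain ⟨a, ha⟩ := exists_finset_of_mem_open hG hq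
      exact ⟨a, fun _ => ha⟩
    · exact ⟨∅, fun h => absurd h hq⟩
  choose a ha using this
  refine ⟨⋃ q ∈ Q, (a q : Set Ω), hQc.biUnion fun q _ => (a q).countable_toSet, ?_⟩
  intro y hy w hw
  by_contra hcon
  push Not at hcon
  set s : Set Ω := ⋃ q ∈ Q, (a q : Set Ω) with hs
  have hopen : IsOpen (G ∩ (mix s w) ⁻¹' H) := hG.inter (hH.preimage (continuous_mix s w))
  have hmem : y ∈ G ∩ (mix s w) ⁻¹' H := by
    refine ⟨hy, ?_⟩
    show mix s w y ∈ H
    rw [mix_eq_of_agree hcon]
    exact hw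
  obtain ⟨q, ⟨hqG, hqH⟩, hqQ⟩ := hQd.inter_open_nonempty _ hopen ⟨y, hmem⟩
  have h1 : mix s w q ∈ G := by
    refine ha q hqG _ fun c hc => mix_mem ?_
    exact mem_biUnion hqQ hc
  exact Set.disjoint_left.1 hGH h1 hqH

variable {Z : Type} [TopologicalSpace Z] [CompactSpace Z]

/-- regularised sets depend on countably many coordinates -/
theorem Rset_dep (P : Set ((Ω → I) × Z)) (V : Set Z) :
    ∃ s : Set Ω, s.Countable ∧ ∀ y ∈ Rset P V, ∀ w : Ω → I, (∀ c ∈ s, w c = y c) →
      w ∈ Rset P V := by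
  have hdis : Disjoint (interior (Cset P V)) (Rset P V)ᶜ := by
    rw [Set.disjoint_left]
    intro y hy hy'
    exact hy' (subset_closure hy)
  obtain ⟨s, hs, hdep⟩ := disjoint_open_dep isOpen_interior
    (isClosed_Rset (P := P) (V := V)).isOpen_compl hdis
  refine ⟨s, hs, ?_⟩
  intro y hy w hw
  by_contra hwR
  have hopen : IsOpen ((mix s w) ⁻¹' (Rset P V)ᶜ) :=
    (isClosed_Rset (P := P) (V := V)).isOpen_compl.preimage (continuous_mix s w)
  have hmem : y ∈ (mix s w) ⁻¹' (Rset P V)ᶜ := by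
    show mix s w y ∈ (Rset P V)ᶜ
    rw [mix_eq_of_agree hw]
    exact hwR
  obtain ⟨z, hz1, hz2⟩ := mem_closure_iff.1 hy _ hopen hmem
  obtain ⟨c, hc, hne⟩ := hdep z hz2 _ hz1
  exact hne (mix_mem hc)

end cube

/-! ### closing off -/

section closing

variable {Ω : Type}

/-- closing off a countable set under a function on finite sets -/
theorem exists_closed_countable (Φ : Finset Ω → Set Ω) (hΦ : ∀ a, (Φ a).Countable) :
    ∃ s : Set Ω, s.Countable ∧ ∀ a : Finset Ω, (a : Set Ω) ⊆ s → Φ a ⊆ s := by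
  classical
  let step : Set Ω → Set Ω := fun s => s ∪ ⋃ a ∈ {a : Finset Ω | (a : Set Ω) ⊆ s}, Φ a
  let seq : ℕ → Set Ω := fun n => step^[n] ∅
  have hseq : ∀ n, seq (n+1) = step (seq n) := fun n => Function.iterate_succ_apply' step n ∅
  have hcount : ∀ n, (seq n).Countable := by
    intro n
    induction n with
    | zero => exact countable_empty
    | succ n ih =>
      rw [hseq]
      refine ih.union (Set.Countable.biUnion ?_ fun a _ => hΦ a)
      have h1 := Set.countable_ofPred_finite_subset ih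
      refine Set.countable_of_injective_of_countable_image (f := fun a : Finset Ω => (a : Set Ω))
        (fun a _ b _ h => Finset.coe_injective h) (h1.mono ?_)
      rintro _ ⟨a, ha, rfl⟩
      exact ⟨a.finite_toSet, ha⟩
  have hmono : Monotone seq := by
    refine monotone_nat_of_le_succ fun n => ?_
    rw [hseq]
    exact subset_union_left
  refine ⟨⋃ n, seq n, countable_iUnion hcount, ?_⟩
  intro a ha
  -- a finite subset lies in a stage
  have : ∃ n, (a : Set Ω) ⊆ seq n := by
    induction a using Finset.induction_on with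
    | empty => exact ⟨0, by simp⟩
    | insert c a _ ih =>
      obtain ⟨n, hn⟩ := ih (subset_trans (by simp) ha)
      obtain ⟨m, hm⟩ := mem_iUnion.1 (ha (by simp : c ∈ ((insert c a : Finset Ω) : Set Ω)))
      refine ⟨max n m, ?_⟩
      rw [Finset.coe_insert]
      exact insert_subset (hmono (le_max_right _ _) hm) (hn.trans (hmono (le_max_left _ _)))
  obtain ⟨n, hn⟩ := this
  refine subset_trans ?_ (subset_iUnion seq (n+1))
  rw [hseq]
  refine subset_trans ?_ subset_union_right
  exact subset_biUnion_of_mem (u := fun a : Finset Ω => Φ a) (show a ∈ {a : Finset Ω | (a : Set Ω) ⊆ seq n} from hn)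

/-- countable subset with dense image in a second countable space -/
theorem exists_countable_dense_image {E W : Type} [TopologicalSpace W]
    [SecondCountableTopology W] (ρ : E → W) :
    ∃ Q : Set E, Q.Countable ∧ ∀ N : Set W, IsOpen N → (∃ e, ρ e ∈ N) → ∃ q ∈ Q, ρ q ∈ N := by
  classical
  by_cases hE : Nonempty E
  · let f : Set W → E := fun b => if h : ∃ e, ρ e ∈ b then h.choose else hE.some
    refine ⟨f '' (countableBasis W), (countable_countableBasis W).image f, ?_⟩
    rintro N hN ⟨e, he⟩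
    obtain ⟨b, hb, heb, hbN⟩ := (isBasis_countableBasis W).exists_subset_of_mem_open he hN
    refine ⟨f b, mem_image_of_mem f hb, hbN ?_⟩
    have h : ∃ e, ρ e ∈ b := ⟨e, heb⟩
    show ρ (f b) ∈ b
    simp only [f, dif_pos h]
    exact h.choose_spec
  · refine ⟨∅, countable_empty, ?_⟩
    rintro N _ ⟨e, _⟩
    exact absurd ⟨e⟩ hE

/-- a countable set of coordinates capturing a dense family -/
theorem closing_off {B E : Set (Ω → I)} (hE : ∀ y ∈ B, ∀ N : Set (Ω → I), IsOpen N → y ∈ N →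
      ∃ q ∈ E, q ∈ N) (sg : (Ω → I) → Set Ω) (hsg : ∀ q ∈ E, (sg q).Countable) :
    ∃ s : Set Ω, s.Countable ∧ ∀ y ∈ B, ∀ N : Set (Ω → I), IsOpen N → y ∈ N →
      ∃ q ∈ E, sg q ⊆ s ∧ ∃ w ∈ N, ∀ c ∈ s, w c = q c := by
  classical
  have hQ : ∀ a : Finset Ω, ∃ Q : Set E, Q.Countable ∧ ∀ N : Set (a → I), IsOpen N →
      (∃ e : E, (fun c : a => (e : Ω → I) c) ∈ N) → ∃ q ∈ Q, (fun c : a => (q : Ω → I) c) ∈ N :=
    fun a => exists_countable_dense_image (fun e : E => fun c : a => (e : Ω → I) c)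
  choose Q hQc hQd using hQ
  obtain ⟨s, hs, hclosed⟩ := exists_closed_countable
    (fun a : Finset Ω => ⋃ q ∈ Q a, sg (q : Ω → I))
    (fun a => (hQc a).biUnion fun q _ => hsg q q.2)
  refine ⟨s, hs, ?_⟩
  intro y hy N hN hyN
  obtain ⟨a, u, hu, hsub⟩ := isOpen_pi_iff.1 hN y hyN
  -- restrict the box to the coordinates in `s`
  let a' : Finset Ω := a.filter (fun c => c ∈ s)
  have ha's : (a' : Set Ω) ⊆ s := by
    intro c hc
    exact (Finset.mem_filter.1 hc).2
  have hbox : IsOpen {z : Ω → I | ∀ c ∈ a', z c ∈ u c} := by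
    have : {z : Ω → I | ∀ c ∈ a', z c ∈ u c} = Set.pi (a' : Set Ω) u := rfl
    rw [this]
    exact isOpen_set_pi a'.finite_toSet fun c hc => (hu c (Finset.mem_filter.1 hc).1).1
  obtain ⟨e, he, heB⟩ := hE y hy _ hbox (fun c hc => (hu c (Finset.mem_filter.1 hc).1).2)
  obtain ⟨q, hqQ, hq⟩ := hQd a' (Set.pi univ fun c : a' => u c)
    (isOpen_set_pi finite_univ fun c _ => (hu c (Finset.mem_filter.1 c.2).1).1)
    ⟨⟨e, he⟩, fun c _ => heB c c.2⟩
  refine ⟨q, q.2, ?_, mix s y q, hsub ?_, fun c hc => mix_mem hc⟩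
  · exact subset_trans (subset_biUnion_of_mem (u := fun q : E => sg (q : Ω → I)) hqQ)
      (hclosed a' ha's)
  · intro c hc
    by_cases hcs : c ∈ s
    · rw [mix_mem hcs]
      exact hq ⟨c, Finset.mem_filter.2 ⟨hc, hcs⟩⟩ (mem_univ _)
    · rw [mix_not_mem hcs]
      exact (hu c hc).2

end closing

end Pool.Agent.H36
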