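import Mathlib

open Set Metric Filter Topology

namespace Pool.Agent.H36

/-- The point `(cos t, sin t)` of the plane. -/
noncomputable def circ (t : ℝ) : EuclideanSpace ℝ (Fin 2) := !₂[Real.cos t, Real.sin t]

/-- The derivative of `circ`. -/
noncomputable def dcirc (t : ℝ) : EuclideanSpace ℝ (Fin 2) := !₂[-Real.sin t, Real.cos t]

theorem norm_circ (t : ℝ) : ‖circ t‖ = 1 := by
  rw [EuclideanSpace.norm_eq]
  simp [circ, Fin.sum_univ_two, sq_abs]

theorem circ_mem_sphere (t : ℝ) : circ t ∈ sphere (0 : EuclideanSpace ℝ (Fin 2)) 1 := by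
  simp [norm_circ]

theorem circ_mem_closedBall (t : ℝ) :
    circ t ∈ closedBall (0 : EuclideanSpace ℝ (Fin 2)) 1 := by
  simp [norm_circ]

theorem exists_circ {x : EuclideanSpace ℝ (Fin 2)} (hx : ‖x‖ = 1) : ∃ t, circ t = x := by
  have h1 : x 0 ^ 2 + x 1 ^ 2 = 1 := by
    have := EuclideanSpace.norm_sq_eq x
    rw [hx] at this
    simp [Fin.sum_univ_two, sq_abs] at this
    linarith
  have hz1 : ‖(⟨x 0, x 1⟩ : ℂ)‖ = 1 := by
    have : ‖(⟨x 0, x 1⟩ : ℂ)‖ ^ 2 = 1 := by
      rw [← Complex.normSq_eq_norm_sq, Complex.normSq_apply]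
      simp; nlinarith
    nlinarith [norm_nonneg (⟨x 0, x 1⟩ : ℂ)]
  have hz0 : (⟨x 0, x 1⟩ : ℂ) ≠ 0 := by
    intro h; rw [h] at hz1; simp at hz1
  refine ⟨(⟨x 0, x 1⟩ : ℂ).arg, ?_⟩
  ext i
  fin_cases i
  · have := Complex.cos_arg hz0
    rw [hz1, div_one] at this
    exact this
  · have := Complex.sin_arg (⟨x 0, x 1⟩ : ℂ)
    rw [hz1, div_one] at this
    exact this

theorem circ_add_two_pi (t : ℝ) : circ (t + 2 * Real.pi) = circ t := by
  simp [circ]

theorem circ_eq (t : ℝ) : circ t = Real.cos t • !₂[1, 0] + Real.sin t • !₂[0, 1] := by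
  ext i
  fin_cases i <;> simp [circ]

theorem dcirc_eq (t : ℝ) : dcirc t = (-Real.sin t) • !₂[1, 0] + Real.cos t • !₂[0, 1] := by
  ext i
  fin_cases i <;> simp [dcirc]

theorem continuous_circ : Continuous circ := by
  simp only [funext circ_eq]
  fun_prop

theorem continuous_dcirc : Continuous dcirc := by
  simp only [funext dcirc_eq]
  fun_prop

theorem hasDerivAt_circ (t : ℝ) : HasDerivAt circ (dcirc t) t := by
  simp only [funext circ_eq, dcirc_eq]
  exact ((Real.hasDerivAt_cos t).smul_const _).add ((Real.hasDerivAt_sin t).smul_const _)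

theorem exists_log (g : EuclideanSpace ℝ (Fin 2) → ℂ)
    (hg : ContinuousOn g (closedBall 0 1))
    (h0 : ∀ x ∈ closedBall (0 : EuclideanSpace ℝ (Fin 2)) 1, g x ≠ 0) :
    ∃ L : EuclideanSpace ℝ (Fin 2) → ℂ, Continuous L ∧
      ∀ x ∈ closedBall (0 : EuclideanSpace ℝ (Fin 2)) 1, Complex.exp (L x) = g x := by
  set ρ : EuclideanSpace ℝ (Fin 2) → EuclideanSpace ℝ (Fin 2) :=
    fun x => (max 1 ‖x‖)⁻¹ • x with hρ
  have hρc : Continuous ρ := by
    have : Continuous fun x : EuclideanSpace ℝ (Fin 2) => (max 1 ‖x‖)⁻¹ := by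
      apply Continuous.inv₀ (by fun_prop)
      intro x
      have : (1:ℝ) ≤ max 1 ‖x‖ := le_max_left _ _
      positivity
    exact this.smul continuous_id
  have hρm : ∀ x, ρ x ∈ closedBall (0 : EuclideanSpace ℝ (Fin 2)) 1 := by
    intro x
    have h1 : (1:ℝ) ≤ max 1 ‖x‖ := le_max_left _ _
    have h2 : ‖x‖ ≤ max 1 ‖x‖ := le_max_right _ _
    rw [mem_closedBall_zero_iff, hρ]
    simp only [norm_smul, norm_inv]
    rw [Real.norm_of_nonneg (by linarith), inv_mul_le_iff₀ (by linarith)]
    linarith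
  have hρi : ∀ x ∈ closedBall (0 : EuclideanSpace ℝ (Fin 2)) 1, ρ x = x := by
    intro x hx
    rw [mem_closedBall_zero_iff] at hx
    simp [hρ, max_eq_left hx]
  let f : C(EuclideanSpace ℝ (Fin 2), ℂ) :=
    ⟨fun x => g (ρ x), hg.comp_continuous hρc hρm⟩
  have hf : ∀ a, f a ∈ ({0}ᶜ : Set ℂ) := fun a => h0 _ (hρm a)
  obtain ⟨F, ⟨-, hF⟩, -⟩ := Complex.isCoveringMapOn_exp.existsUnique_continuousMap_lifts f
    (a₀ := 0) (e₀ := Complex.log (f 0)) (Complex.exp_log (hf 0)) hf
  refine ⟨F, F.continuous, fun x hx => ?_⟩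
  have := congrFun hF x
  simp only [Function.comp_apply] at this
  rw [this]
  show g (ρ x) = g x
  rw [hρi x hx]

/-- A continuous real function that crosses the level `c` only downwards is below `c` after
any time at which it equals `c`. -/
theorem below_after {ψ : ℝ → ℝ} (hψ : Continuous ψ) {c : ℝ}
    (hl : ∀ t, ψ t = c → ∀ᶠ s in 𝓝[<] t, c < ψ s)
    (hr : ∀ t, ψ t = c → ∀ᶠ s in 𝓝[>] t, ψ s < c)
    {a b : ℝ} (hab : a < b) (ha : ψ a = c) : ψ b < c := by
  by_contra hcon
  push Not at hcon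
  -- the set of times in `(a, b]` with value at least `c`
  set S : Set ℝ := {t | a < t ∧ t ≤ b ∧ c ≤ ψ t} with hS
  have hbS : b ∈ S := ⟨hab, le_rfl, hcon⟩
  obtain ⟨δ, hδ, hδ'⟩ : ∃ δ > a, ∀ s ∈ Ioo a δ, ψ s < c := by
    have := hr a ha
    rw [eventually_nhdsWithin_iff, Metric.eventually_nhds_iff] at this
    obtain ⟨ε, hε, h⟩ := this
    refine ⟨a + ε, by linarith, fun s hs => h ?_ hs.1⟩
    rw [Real.dist_eq, abs_of_pos (by linarith [hs.1])]
    linarith [hs.2]
  have hlow : ∀ t ∈ S, δ ≤ t := by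
    intro t ht
    by_contra h
    push Not at h
    have := hδ' t ⟨ht.1, h⟩
    linarith [ht.2.2]
  have hbdd : BddBelow S := ⟨δ, hlow⟩
  set u := sInf S with hu
  have huδ : δ ≤ u := le_csInf ⟨b, hbS⟩ hlow
  have hub : u ≤ b := csInf_le hbdd hbS
  -- values before `u` are below `c`
  have hbefore : ∀ t, a < t → t < u → ψ t < c := by
    intro t h1 h2
    by_contra h
    push Not at h
    exact absurd (csInf_le hbdd (show t ∈ S from ⟨h1, by linarith, h⟩)) (not_le.2 h2)
  have hau : a < u := by linarith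
  have hucl : u ∈ closure S := csInf_mem_closure ⟨b, hbS⟩ hbdd
  have hge : c ≤ ψ u := by
    have hcl : IsClosed {t | c ≤ ψ t} := isClosed_le continuous_const hψ
    exact hcl.closure_subset_iff.2 (fun t ht => ht.2.2) hucl
  have hle : ψ u ≤ c := by
    have h1 : Tendsto ψ (𝓝[<] u) (𝓝 (ψ u)) := hψ.continuousWithinAt
    apply le_of_tendsto h1
    have : Ioo a u ∈ 𝓝[<] u := Ioo_mem_nhdsLT hau
    filter_upwards [this] with s hs
    exact (hbefore s hs.1 hs.2).le
  have heq : ψ u = c := le_antisymm hle hge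
  have h1 := hl u heq
  have h2 : Ioo a u ∈ 𝓝[<] u := Ioo_mem_nhdsLT hau
  obtain ⟨s, hs1, hs2⟩ := (h1.and h2).exists
  linarith [hbefore s hs2.1 hs2.2]

/-- If `φ` has a global maximum at `t` and its derivative does not vanish just before `t`, then
the derivative is positive just before `t`. -/
theorem pos_before_max {φ φ' : ℝ → ℝ} (hd : ∀ t, HasDerivAt φ (φ' t) t) (hc : Continuous φ')
    {t : ℝ} (hmax : ∀ s, φ s ≤ φ t) (hne : ∀ᶠ s in 𝓝[<] t, φ' s ≠ 0) :
    ∀ᶠ s in 𝓝[<] t, 0 < φ' s := by
  obtain ⟨δ, hδ, hδ'⟩ : ∃ δ < t, ∀ s ∈ Ioo δ t, φ' s ≠ 0 := by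
    rw [eventually_nhdsWithin_iff, Metric.eventually_nhds_iff] at hne
    obtain ⟨ε, hε, h⟩ := hne
    refine ⟨t - ε, by linarith, fun s hs => h ?_ hs.2⟩
    rw [Real.dist_eq, abs_of_neg (by linarith [hs.2])]
    linarith [hs.1]
  have hIoo : Ioo δ t ∈ 𝓝[<] t := Ioo_mem_nhdsLT hδ
  -- constant sign
  by_cases hpos : ∃ s ∈ Ioo δ t, φ' s < 0
  · exfalso
    obtain ⟨s, hs, hneg⟩ := hpos
    have hall : ∀ r ∈ Ioo δ t, φ' r < 0 := by
      intro r hr
      by_contra h
      push Not at h
      have hcon : (Ioo δ t).OrdConnected := ordConnected_Ioo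
      have hpre : IsPreconnected (Ioo δ t) := isPreconnected_Ioo
      have := hpre.intermediate_value hs hr hc.continuousOn
      obtain ⟨q, hq, hq0⟩ := this ⟨hneg.le, h⟩
      exact hδ' q hq hq0
    have hanti : StrictAntiOn φ (Icc s t) := by
      apply strictAntiOn_of_deriv_neg (convex_Icc s t)
      · exact (continuous_iff_continuousAt.2 fun x => (hd x).continuousAt).continuousOn
      · intro x hx
        rw [interior_Icc] at hx
        rw [(hd x).deriv]
        exact hall x ⟨by linarith [hs.1, hx.1], hx.2⟩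
    have := hanti (left_mem_Icc.2 hs.2.le) (right_mem_Icc.2 hs.2.le) hs.2
    linarith [hmax s]
  · push Not at hpos
    filter_upwards [hIoo] with s hs
    exact lt_of_le_of_ne (hpos s hs) (Ne.symm (hδ' s hs))

theorem neg_after_max {φ φ' : ℝ → ℝ} (hd : ∀ t, HasDerivAt φ (φ' t) t) (hc : Continuous φ')
    {t : ℝ} (hmax : ∀ s, φ s ≤ φ t) (hne : ∀ᶠ s in 𝓝[>] t, φ' s ≠ 0) :
    ∀ᶠ s in 𝓝[>] t, φ' s < 0 := by
  have key := pos_before_max (φ := fun s => φ (-s)) (φ' := fun s => -φ' (-s)) (t := -t)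
    (fun s => by
      have := (hd (-s)).scomp s (hasDerivAt_neg s)
      simp only [neg_smul, one_smul] at this
      exact this) (by fun_prop) (by intro s; simpa using hmax (-s)) ?_
  · have hmap : Tendsto (fun s : ℝ => -s) (𝓝[>] t) (𝓝[<] (-t)) := by
      exact tendsto_neg_nhdsGT
    filter_upwards [hmap.eventually key] with s hs
    simp at hs
    exact hs
  · have hmap : Tendsto (fun s : ℝ => -s) (𝓝[<] (-t)) (𝓝[>] t) := by
      simpa using tendsto_neg_nhdsLT (a := -t)
    filter_upwards [hmap.eventually hne] with s hs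
    simpa using hs

/-- The two partial derivatives as a complex number. -/
noncomputable def grad (f' : EuclideanSpace ℝ (Fin 2) → EuclideanSpace ℝ (Fin 2) →L[ℝ] ℝ)
    (x : EuclideanSpace ℝ (Fin 2)) : ℂ :=
  (f' x !₂[1, 0] : ℂ) + (f' x !₂[0, 1] : ℂ) * Complex.I

theorem grad_re (f' : EuclideanSpace ℝ (Fin 2) → EuclideanSpace ℝ (Fin 2) →L[ℝ] ℝ)
    (x : EuclideanSpace ℝ (Fin 2)) : (grad f' x).re = f' x !₂[1, 0] := by
  simp [grad]

theorem grad_im (f' : EuclideanSpace ℝ (Fin 2) → EuclideanSpace ℝ (Fin 2) →L[ℝ] ℝ)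
    (x : EuclideanSpace ℝ (Fin 2)) : (grad f' x).im = f' x !₂[0, 1] := by
  simp [grad]

/-- A function on the closed disk whose boundary critical points are isolated and are all
absolute extrema, and whose boundary maximum is attained at least twice, has a critical point. -/
theorem exists_critical {f : EuclideanSpace ℝ (Fin 2) → ℝ}
    {f' : EuclideanSpace ℝ (Fin 2) → EuclideanSpace ℝ (Fin 2) →L[ℝ] ℝ}
    (hf : ∀ x ∈ closedBall (0 : EuclideanSpace ℝ (Fin 2)) 1,
      HasFDerivWithinAt f (f' x) (closedBall 0 1) x)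
    (hc : ContinuousOn f' (closedBall 0 1))
    {M m : ℝ} (hM : ∀ t, f (circ t) ≤ M) (hm : ∀ t, m ≤ f (circ t))
    (hcrit : ∀ t, f' (circ t) (dcirc t) = 0 → f (circ t) = M ∨ f (circ t) = m)
    (hiso : ∀ t, f' (circ t) (dcirc t) = 0 →
      ∀ᶠ s in 𝓝[≠] t, f' (circ s) (dcirc s) ≠ 0)
    {t₁ t₂ : ℝ} (h12 : t₁ < t₂) (h21 : t₂ < t₁ + 2 * Real.pi)
    (h1 : f (circ t₁) = M) (h2 : f (circ t₂) = M) :
    ∃ x ∈ closedBall (0 : EuclideanSpace ℝ (Fin 2)) 1, f' x = 0 := by
  by_contra hcon
  push Not at hcon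
  have hπ := Real.pi_pos
  -- the lift of the argument of the gradient
  have hgc : ContinuousOn (grad f') (closedBall 0 1) := by
    have h0 : ContinuousOn (fun x => f' x !₂[1, 0]) (closedBall 0 1) :=
      hc.clm_apply continuousOn_const
    have h1 : ContinuousOn (fun x => f' x !₂[0, 1]) (closedBall 0 1) :=
      hc.clm_apply continuousOn_const
    unfold grad
    fun_prop
  have hg0 : ∀ x ∈ closedBall (0 : EuclideanSpace ℝ (Fin 2)) 1, grad f' x ≠ 0 := by
    intro x hx h
    apply hcon x hx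
    have h0 : f' x !₂[1, 0] = 0 := by rw [← grad_re, h]; rfl
    have h1 : f' x !₂[0, 1] = 0 := by rw [← grad_im, h]; rfl
    ext v
    have hv : v = v 0 • !₂[1, 0] + v 1 • !₂[0, 1] := by
      ext i
      fin_cases i <;> simp
    rw [hv, map_add, map_smul, map_smul, h0, h1]
    simp
  obtain ⟨L, hL, hLg⟩ := exists_log (grad f') hgc hg0
  set ψ : ℝ → ℝ := fun t => (L (circ t)).im - t with hψ
  set R : ℝ → ℝ := fun t => Real.exp (L (circ t)).re with hR
  have hRpos : ∀ t, 0 < R t := fun t => Real.exp_pos _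
  have hψc : Continuous ψ := by
    have := continuous_circ
    have : Continuous fun t => L (circ t) := hL.comp continuous_circ
    fun_prop
  have hψper : ∀ t, ψ (t + 2 * Real.pi) = ψ t - 2 * Real.pi := by
    intro t
    simp only [hψ, circ_add_two_pi]
    ring
  have hre : ∀ t, f' (circ t) !₂[1, 0] = R t * Real.cos (L (circ t)).im := by
    intro t
    rw [← grad_re, ← hLg _ (circ_mem_closedBall t), Complex.exp_re]
  have him : ∀ t, f' (circ t) !₂[0, 1] = R t * Real.sin (L (circ t)).im := by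
    intro t
    rw [← grad_im, ← hLg _ (circ_mem_closedBall t), Complex.exp_im]
  have htan : ∀ t, f' (circ t) (dcirc t) = R t * Real.sin (ψ t) := by
    intro t
    rw [dcirc_eq, map_add, map_smul, map_smul, hre, him]
    simp only [hψ, Real.sin_sub, smul_eq_mul]
    ring
  have hrad : ∀ t, f' (circ t) (circ t) = R t * Real.cos (ψ t) := by
    intro t
    conv_lhs => rw [circ_eq t]
    rw [map_add, map_smul, map_smul]
    have e : ∀ y, f' (Real.cos t • !₂[1, 0] + Real.sin t • !₂[0, 1]) y = f' (circ t) y := by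
      intro y; rw [← circ_eq]
    simp only [e, hre, him, hψ, Real.cos_sub, smul_eq_mul]
    ring
  have hφd : ∀ t, HasDerivAt (fun s => f (circ s)) (R t * Real.sin (ψ t)) t := by
    intro t
    rw [← htan t]
    exact (hf _ (circ_mem_closedBall t)).comp_hasDerivAt t (hasDerivAt_circ t)
      (Filter.Eventually.of_forall circ_mem_closedBall)
  have hRc : Continuous R :=
    Real.continuous_exp.comp (Complex.continuous_re.comp (hL.comp continuous_circ))
  have hφc : Continuous fun t => R t * Real.sin (ψ t) := by fun_prop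
  have hfc : ContinuousOn f (closedBall 0 1) := fun x hx => (hf x hx).continuousWithinAt
  -- the maximum and minimum over the disk are attained on the boundary
  have hMball : ∀ x ∈ closedBall (0 : EuclideanSpace ℝ (Fin 2)) 1, f x ≤ M := by
    obtain ⟨x, hx, hxmax⟩ := (isCompact_closedBall (0 : EuclideanSpace ℝ (Fin 2)) 1).exists_isMaxOn
      ⟨0, by simp⟩ hfc
    have hx1 : ‖x‖ = 1 := by
      rw [mem_closedBall_zero_iff] at hx
      by_contra hne
      have hlt : ‖x‖ < 1 := lt_of_le_of_ne hx hne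
      have hnhds : closedBall (0 : EuclideanSpace ℝ (Fin 2)) 1 ∈ 𝓝 x :=
        closedBall_mem_nhds_of_mem (by simpa using hlt)
      have h1 := (hf x (by simpa using hx)).hasFDerivAt hnhds
      exact hcon x (by simpa using hx) ((hxmax.isLocalMax hnhds).hasFDerivAt_eq_zero h1)
    obtain ⟨t, rfl⟩ := exists_circ hx1
    intro y hy
    exact (hxmax hy).trans (hM t)
  have hmball : ∀ x ∈ closedBall (0 : EuclideanSpace ℝ (Fin 2)) 1, m ≤ f x := by
    obtain ⟨x, hx, hxmin⟩ := (isCompact_closedBall (0 : EuclideanSpace ℝ (Fin 2)) 1).exists_isMinOn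
      ⟨0, by simp⟩ hfc
    have hx1 : ‖x‖ = 1 := by
      rw [mem_closedBall_zero_iff] at hx
      by_contra hne
      have hlt : ‖x‖ < 1 := lt_of_le_of_ne hx hne
      have hnhds : closedBall (0 : EuclideanSpace ℝ (Fin 2)) 1 ∈ 𝓝 x :=
        closedBall_mem_nhds_of_mem (by simpa using hlt)
      have h1 := (hf x (by simpa using hx)).hasFDerivAt hnhds
      exact hcon x (by simpa using hx) ((hxmin.isLocalMin hnhds).hasFDerivAt_eq_zero h1)
    obtain ⟨t, rfl⟩ := exists_circ hx1
    intro y hy
    exact (hm t).trans (hxmin hy)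
  have hcone : ∀ t, -circ t ∈ posTangentConeAt (closedBall (0 : EuclideanSpace ℝ (Fin 2)) 1)
      (circ t) := by
    intro t
    apply mem_posTangentConeAt_of_segment_subset
    rw [add_neg_cancel]
    exact (convex_closedBall _ _).segment_subset (circ_mem_closedBall t) (by simp)
  have hcosM : ∀ t, Real.sin (ψ t) = 0 → f (circ t) = M → Real.cos (ψ t) = 1 := by
    intro t hs ht
    have hmax : IsLocalMaxOn f (closedBall (0 : EuclideanSpace ℝ (Fin 2)) 1) (circ t) := by
      filter_upwards [self_mem_nhdsWithin] with y hy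
      rw [ht]; exact hMball y hy
    have := hmax.hasFDerivWithinAt_nonpos (hf _ (circ_mem_closedBall t)) (hcone t)
    rw [map_neg, hrad] at this
    have h0 : 0 ≤ Real.cos (ψ t) := by
      have := hRpos t
      by_contra h
      push Not at h
      nlinarith
    have := Real.sin_sq_add_cos_sq (ψ t)
    rw [hs] at this
    nlinarith
  have hcosm : ∀ t, Real.sin (ψ t) = 0 → f (circ t) = m → Real.cos (ψ t) = -1 := by
    intro t hs ht
    have hmin : IsLocalMinOn f (closedBall (0 : EuclideanSpace ℝ (Fin 2)) 1) (circ t) := by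
      filter_upwards [self_mem_nhdsWithin] with y hy
      rw [ht]; exact hmball y hy
    have := hmin.hasFDerivWithinAt_nonneg (hf _ (circ_mem_closedBall t)) (hcone t)
    rw [map_neg, hrad] at this
    have h0 : Real.cos (ψ t) ≤ 0 := by
      have := hRpos t
      by_contra h
      push Not at h
      nlinarith
    have := Real.sin_sq_add_cos_sq (ψ t)
    rw [hs] at this
    nlinarith
  -- near a zero of the sine, signs
  have hnear : ∀ t, ∀ᶠ s in 𝓝 t, |ψ s - ψ t| < Real.pi := by
    intro t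
    have h : Tendsto (fun s => |ψ s - ψ t|) (𝓝 t) (𝓝 |ψ t - ψ t|) := by
      apply Continuous.tendsto
      fun_prop
    rw [sub_self, abs_zero] at h
    exact h.eventually (gt_mem_nhds hπ)
  have hposd : ∀ x, |x| < Real.pi → 0 < Real.sin x → 0 < x := by
    intro x hx hs
    by_contra h
    push Not at h
    have := Real.sin_nonpos_of_nonpos_of_neg_pi_le h (by linarith [(abs_lt.1 hx).1])
    linarith
  have hnegd : ∀ x, |x| < Real.pi → Real.sin x < 0 → x < 0 := by
    intro x hx hs
    have := hposd (-x) (by simpa using hx) (by simpa using hs)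
    linarith
  have hsplit : ∀ t s, Real.sin (ψ t) = 0 →
      Real.sin (ψ s) = Real.sin (ψ s - ψ t) * Real.cos (ψ t) := by
    intro t s h0
    have : ψ s = (ψ s - ψ t) + ψ t := by ring
    conv_lhs => rw [this]
    rw [Real.sin_add, h0]
    ring
  have hcross : ∀ t, Real.sin (ψ t) = 0 →
      (∀ᶠ s in 𝓝[<] t, ψ t < ψ s) ∧ (∀ᶠ s in 𝓝[>] t, ψ s < ψ t) := by
    intro t h0
    have hz : f' (circ t) (dcirc t) = 0 := by rw [htan, h0, mul_zero]
    have hi := hiso t hz
    simp only [htan] at hi
    have hil : ∀ᶠ s in 𝓝[<] t, R s * Real.sin (ψ s) ≠ 0 :=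
      hi.filter_mono (nhdsWithin_mono _ (fun x hx => ne_of_lt hx))
    have hir : ∀ᶠ s in 𝓝[>] t, R s * Real.sin (ψ s) ≠ 0 :=
      hi.filter_mono (nhdsWithin_mono _ (fun x hx => ne_of_gt hx))
    rcases hcrit t hz with hmx | hmn
    · have hcos := hcosM t h0 hmx
      have hmax : ∀ s, f (circ s) ≤ f (circ t) := fun s => by rw [hmx]; exact hM s
      constructor
      · filter_upwards [pos_before_max hφd hφc hmax hil,
          (hnear t).filter_mono nhdsWithin_le_nhds] with s hs hn
        have h2 : 0 < Real.sin (ψ s) := by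
          by_contra h; push Not at h; nlinarith [hRpos s]
        rw [hsplit t s h0, hcos, mul_one] at h2
        linarith [hposd _ hn h2]
      · filter_upwards [neg_after_max hφd hφc hmax hir,
          (hnear t).filter_mono nhdsWithin_le_nhds] with s hs hn
        have h2 : Real.sin (ψ s) < 0 := by
          by_contra h; push Not at h; nlinarith [hRpos s]
        rw [hsplit t s h0, hcos, mul_one] at h2
        linarith [hnegd _ hn h2]
    · have hcos := hcosm t h0 hmn
      have hmax : ∀ s, (fun s => -f (circ s)) s ≤ (fun s => -f (circ s)) t := fun s => by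
        simp only [hmn, neg_le_neg_iff]; exact hm s
      have hd' : ∀ t, HasDerivAt (fun s => -f (circ s)) (-(R t * Real.sin (ψ t))) t :=
        fun t => (hφd t).neg
      constructor
      · filter_upwards [pos_before_max hd' hφc.neg hmax (by simpa using hil),
          (hnear t).filter_mono nhdsWithin_le_nhds] with s hs hn
        have h2 : Real.sin (ψ s) < 0 := by
          by_contra h; push Not at h; nlinarith [hRpos s]
        rw [hsplit t s h0, hcos] at h2
        linarith [hposd _ hn (by linarith)]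
      · filter_upwards [neg_after_max hd' hφc.neg hmax (by simpa using hir),
          (hnear t).filter_mono nhdsWithin_le_nhds] with s hs hn
        have h2 : 0 < Real.sin (ψ s) := by
          by_contra h; push Not at h; nlinarith [hRpos s]
        rw [hsplit t s h0, hcos] at h2
        linarith [hnegd _ hn (by linarith)]
  -- the two maximum points
  have hsin : ∀ t, f (circ t) = M → Real.sin (ψ t) = 0 := by
    intro t ht
    have hmax : IsLocalMax (fun s => f (circ s)) t :=
      Filter.Eventually.of_forall fun s => by simp only [ht]; exact hM s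
    have := hmax.hasDerivAt_eq_zero (hφd t)
    rcases mul_eq_zero.1 this with h | h
    · exact absurd h (hRpos t).ne'
    · exact h
  have hs1 := hsin t₁ h1
  have hs2 := hsin t₂ h2
  have hc1 := hcosM t₁ hs1 h1
  have hc2 := hcosM t₂ hs2 h2
  have hdown1 : ψ t₂ < ψ t₁ := by
    apply below_after hψc (c := ψ t₁) _ _ h12 rfl
    · intro t ht
      have := (hcross t (by rw [ht]; exact hs1)).1
      rwa [ht] at this
    · intro t ht
      have := (hcross t (by rw [ht]; exact hs1)).2
      rwa [ht] at this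
  have hdown2 : ψ (t₁ + 2 * Real.pi) < ψ t₂ := by
    apply below_after hψc (c := ψ t₂) _ _ h21 rfl
    · intro t ht
      have := (hcross t (by rw [ht]; exact hs2)).1
      rwa [ht] at this
    · intro t ht
      have := (hcross t (by rw [ht]; exact hs2)).2
      rwa [ht] at this
  rw [hψper] at hdown2
  have hcd : Real.cos (ψ t₁ - ψ t₂) = 1 := by
    rw [Real.cos_sub, hc1, hc2, hs1, hs2]; ring
  have := (Real.cos_eq_one_iff_of_lt_of_lt (by linarith) (by linarith)).1 hcd
  linarith

end Pool.Agent.H36
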