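import Pool.Agent.H36.FrameMain

open Set Metric Filter Topology
open scoped ContDiff RealInnerProductSpace

namespace Pool.Agent.H36

section curve

variable (e f : EuclideanSpace ℝ (Fin 3))

/-- `cos x • e + sin x • f`. -/
noncomputable def nn (x : ℝ) : EuclideanSpace ℝ (Fin 3) := Real.cos x • e + Real.sin x • f

/-- `-sin x • e + cos x • f`. -/
noncomputable def tt (x : ℝ) : EuclideanSpace ℝ (Fin 3) := (-Real.sin x) • e + Real.cos x • f

/-- The closed curve with support function `p` in the plane of `e` and `f`. -/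
noncomputable def curve (p : ℝ → ℝ) (x : ℝ) : EuclideanSpace ℝ (Fin 3) :=
  p x • nn e f x + deriv p x • tt e f x

theorem contDiff_nn : ContDiff ℝ ∞ (nn e f) := by
  unfold nn
  exact (Real.contDiff_cos.smul contDiff_const).add (Real.contDiff_sin.smul contDiff_const)

theorem contDiff_tt : ContDiff ℝ ∞ (tt e f) := by
  unfold tt
  exact (Real.contDiff_sin.neg.smul contDiff_const).add (Real.contDiff_cos.smul contDiff_const)

theorem hasDerivAt_nn (x : ℝ) : HasDerivAt (nn e f) (tt e f x) x :=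
  ((Real.hasDerivAt_cos x).smul_const _).add ((Real.hasDerivAt_sin x).smul_const _)

theorem hasDerivAt_tt (x : ℝ) : HasDerivAt (tt e f) (-nn e f x) x := by
  have h := ((Real.hasDerivAt_sin x).neg.smul_const e).add ((Real.hasDerivAt_cos x).smul_const f)
  have e1 : -nn e f x = (-Real.cos x) • e + (-Real.sin x) • f := by
    simp [nn, neg_smul, add_comm]
  rw [e1]
  exact h

theorem contDiff_curve {p : ℝ → ℝ} (hp : ContDiff ℝ ∞ p) : ContDiff ℝ ∞ (curve e f p) := by
  have hd : ContDiff ℝ ∞ (deriv p) := ((contDiff_infty_iff_deriv).1 hp).2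
  exact (hp.smul (contDiff_nn e f)).add (hd.smul (contDiff_tt e f))

theorem hasDerivAt_curve {p : ℝ → ℝ} (hp : ContDiff ℝ ∞ p) (x : ℝ) :
    HasDerivAt (curve e f p) ((p x + deriv (deriv p) x) • tt e f x) x := by
  have hd : ContDiff ℝ ∞ (deriv p) := ((contDiff_infty_iff_deriv).1 hp).2
  have h1 : HasDerivAt p (deriv p x) x := (hp.differentiable (by simp)).differentiableAt.hasDerivAt
  have h2 : HasDerivAt (deriv p) (deriv (deriv p) x) x :=
    (hd.differentiable (by simp)).differentiableAt.hasDerivAt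
  have h := (h1.smul (hasDerivAt_nn e f x)).add (h2.smul (hasDerivAt_tt e f x))
  have e1 : (p x + deriv (deriv p) x) • tt e f x =
      p x • tt e f x + deriv p x • nn e f x +
        (deriv p x • -nn e f x + deriv (deriv p) x • tt e f x) := by
    rw [smul_neg, add_smul]; abel
  rw [e1]
  exact h

theorem nn_add_two_pi (x : ℝ) : nn e f (x + 2 * Real.pi) = nn e f x := by simp [nn]

theorem tt_add_two_pi (x : ℝ) : tt e f (x + 2 * Real.pi) = tt e f x := by simp [tt]

theorem curve_periodic {p : ℝ → ℝ} (hper : ∀ x, p (x + 4 * Real.pi) = p x) (x : ℝ) :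
    curve e f p (x + 4 * Real.pi) = curve e f p x := by
  have hd : deriv p (x + 4 * Real.pi) = deriv p x := by
    rw [← deriv_comp_add_const p (4 * Real.pi) x]
    simp only [hper]
  have h2 : x + 4 * Real.pi = x + 2 * Real.pi + 2 * Real.pi := by ring
  unfold curve
  rw [hper, hd]
  rw [h2, nn_add_two_pi, nn_add_two_pi, tt_add_two_pi, tt_add_two_pi]

theorem tt_ne_zero (hef : LinearIndependent ℝ ![e, f]) (x : ℝ) : tt e f x ≠ 0 := by
  intro h
  have := LinearIndependent.pair_iff.1 hef _ _ h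
  have h2 := Real.sin_sq_add_cos_sq x
  rw [this.2, neg_eq_zero.1 this.1] at h2
  norm_num at h2

theorem inner_nn (ξ : EuclideanSpace ℝ (Fin 3)) {a α : ℝ} (h1 : ⟪ξ, e⟫ = a * Real.cos α)
    (h2 : ⟪ξ, f⟫ = a * Real.sin α) (x : ℝ) : ⟪ξ, nn e f x⟫ = a * Real.cos (x - α) := by
  rw [nn, inner_add_right, inner_smul_right, inner_smul_right, h1, h2, Real.cos_sub]
  ring

theorem inner_tt (ξ : EuclideanSpace ℝ (Fin 3)) {a α : ℝ} (h1 : ⟪ξ, e⟫ = a * Real.cos α)
    (h2 : ⟪ξ, f⟫ = a * Real.sin α) (x : ℝ) : ⟪ξ, tt e f x⟫ = -(a * Real.sin (x - α)) := by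
  rw [tt, inner_add_right, inner_smul_right, inner_smul_right, h1, h2, Real.sin_sub]
  ring

end curve

/-- A membrane with boundary a curve whose support function is `1` at all `α + n π` and has
different slopes at `α` and `α + 2 π` has a normal in every direction whose shadow on the plane
of the curve makes the angle `α`. -/
theorem curve_normal {e f : EuclideanSpace ℝ (Fin 3)} (hef : LinearIndependent ℝ ![e, f])
    {p : ℝ → ℝ} (hp : ContDiff ℝ ∞ p) (hper : ∀ x, p (x + 4 * Real.pi) = p x)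
    (hpos : ∀ x, 0 < p x + deriv (deriv p) x)
    {ξ : EuclideanSpace ℝ (Fin 3)} {a α : ℝ} (ha : 0 < a) (h1 : ⟪ξ, e⟫ = a * Real.cos α)
    (h2 : ⟪ξ, f⟫ = a * Real.sin α) (hα : ∀ n : ℤ, p (α + n * Real.pi) = 1)
    (hne : deriv p α ≠ deriv p (α + 2 * Real.pi))
    {H : EuclideanSpace ℝ (Fin 2) → EuclideanSpace ℝ (Fin 3)}
    (hH : ContDiffOn ℝ ∞ H (closedBall 0 1))
    (himm : ∀ x ∈ closedBall (0 : EuclideanSpace ℝ (Fin 2)) 1,
      Function.Injective (fderivWithin ℝ H (closedBall 0 1) x))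
    (hb : H '' sphere 0 1 = range (curve e f p)) :
    ∃ x ∈ closedBall (0 : EuclideanSpace ℝ (Fin 2)) 1,
      ∀ v, ⟪ξ, fderivWithin ℝ H (closedBall 0 1) x v⟫ = 0 := by
  have hπ := Real.pi_pos
  have hcper := curve_periodic e f hper
  have hval : ∀ x, ⟪ξ, curve e f p x⟫ =
      a * (p x * Real.cos (x - α) - deriv p x * Real.sin (x - α)) := by
    intro x
    rw [curve, inner_add_right, inner_smul_right, inner_smul_right, inner_nn e f ξ h1 h2,
      inner_tt e f ξ h1 h2]
    ring
  have hdval : ∀ x, ⟪ξ, (p x + deriv (deriv p) x) • tt e f x⟫ =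
      -((p x + deriv (deriv p) x) * a * Real.sin (x - α)) := by
    intro x
    rw [inner_smul_right, inner_tt e f ξ h1 h2]
    ring
  have hzero : ∀ x, ⟪ξ, (p x + deriv (deriv p) x) • tt e f x⟫ = 0 →
      ∃ n : ℤ, x = α + n * Real.pi := by
    intro x hx
    rw [hdval, neg_eq_zero] at hx
    have hs : Real.sin (x - α) = 0 := by
      rcases mul_eq_zero.1 hx with h | h
      · exact absurd h (mul_pos (hpos x) ha).ne'
      · exact h
    obtain ⟨n, hn⟩ := Real.sin_eq_zero_iff.1 hs
    exact ⟨n, by linarith⟩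
  have hcrit : ∀ x, ⟪ξ, (p x + deriv (deriv p) x) • tt e f x⟫ = 0 →
      ⟪ξ, curve e f p x⟫ = a ∨ ⟪ξ, curve e f p x⟫ = -a := by
    intro x hx
    obtain ⟨n, rfl⟩ := hzero x hx
    rw [hval, hα n]
    have e1 : α + n * Real.pi - α = n * Real.pi := by ring
    rw [e1, Real.sin_int_mul_pi, Real.cos_int_mul_pi]
    rcases Int.even_or_odd n with hn | hn
    · left; rw [hn.neg_one_zpow]; ring
    · right; rw [hn.neg_one_zpow]; ring
  -- global bounds
  have hcd := hasDerivAt_curve e f hp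
  have hud : ∀ x, HasDerivAt (fun x => ⟪ξ, curve e f p x⟫)
      ⟪ξ, (p x + deriv (deriv p) x) • tt e f x⟫ x := by
    intro x
    exact (innerSL ℝ ξ).hasFDerivAt.comp_hasDerivAt x (hcd x)
  have huc : Continuous fun x => ⟪ξ, curve e f p x⟫ :=
    continuous_iff_continuousAt.2 fun x => (hud x).continuousAt
  have huper : Function.Periodic (fun x => ⟪ξ, curve e f p x⟫) (4 * Real.pi) := by
    intro x; simp only [hcper]
  have hub : ∀ x, ⟪ξ, curve e f p x⟫ ≤ a := by
    obtain ⟨z, -, hz⟩ := (isCompact_Icc (a := (0:ℝ)) (b := 4 * Real.pi)).exists_isMaxOn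
      ⟨0, by constructor <;> positivity⟩ huc.continuousOn
    have hall : ∀ x, ⟪ξ, curve e f p x⟫ ≤ ⟪ξ, curve e f p z⟫ := by
      intro x
      obtain ⟨y, hy, hxy⟩ := huper.exists_mem_Ico₀ (by positivity) x
      rw [hxy]
      exact hz ⟨hy.1, hy.2.le⟩
    have hloc : IsLocalMax (fun x => ⟪ξ, curve e f p x⟫) z := Filter.Eventually.of_forall hall
    have h0 := hloc.hasDerivAt_eq_zero (hud z)
    intro x
    rcases hcrit z h0 with h | h
    · linarith [hall x]
    · linarith [hall x]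
  have hlb : ∀ x, -a ≤ ⟪ξ, curve e f p x⟫ := by
    obtain ⟨z, -, hz⟩ := (isCompact_Icc (a := (0:ℝ)) (b := 4 * Real.pi)).exists_isMinOn
      ⟨0, by constructor <;> positivity⟩ huc.continuousOn
    have hall : ∀ x, ⟪ξ, curve e f p z⟫ ≤ ⟪ξ, curve e f p x⟫ := by
      intro x
      obtain ⟨y, hy, hxy⟩ := huper.exists_mem_Ico₀ (by positivity) x
      rw [hxy]
      exact hz ⟨hy.1, hy.2.le⟩
    have hloc : IsLocalMin (fun x => ⟪ξ, curve e f p x⟫) z := Filter.Eventually.of_forall hall
    have h0 := hloc.hasDerivAt_eq_zero (hud z)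
    intro x
    rcases hcrit z h0 with h | h
    · linarith [hall x]
    · linarith [hall x]
  -- finitely many critical values in space
  have hfin : {q | ∃ x, ⟪ξ, (p x + deriv (deriv p) x) • tt e f x⟫ = 0 ∧ curve e f p x = q}.Finite := by
    apply (Set.finite_range (fun n : Fin 4 => curve e f p (α + (n : ℕ) * Real.pi))).subset
    rintro q ⟨x, hx, rfl⟩
    obtain ⟨n, rfl⟩ := hzero x hx
    have hcp : Function.Periodic (curve e f p) (4 * Real.pi) := hcper
    have hlt : (n % 4).toNat < 4 := by omega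
    refine ⟨⟨(n % 4).toNat, hlt⟩, ?_⟩
    have h4 : ((n % 4).toNat : ℤ) = n % 4 := Int.toNat_of_nonneg (by omega)
    have h5 : (((n % 4).toNat : ℕ) : ℝ) = ((n % 4 : ℤ) : ℝ) := by
      exact_mod_cast congrArg (fun z : ℤ => (z : ℝ)) h4
    have h6 : (n : ℝ) = ((n % 4 : ℤ) : ℝ) + ((n / 4 : ℤ) : ℝ) * 4 := by
      have : n = n % 4 + n / 4 * 4 := by omega
      exact_mod_cast congrArg (fun z : ℤ => (z : ℝ)) this
    have h7 : α + (n : ℝ) * Real.pi =
        α + ((n % 4 : ℤ) : ℝ) * Real.pi + ((n / 4 : ℤ) : ℝ) * (4 * Real.pi) := by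
      linear_combination Real.pi * h6
    show curve e f p (α + (((n % 4).toNat : ℕ) : ℝ) * Real.pi) = _
    rw [h7, h5, hcp.int_mul (n / 4) _]
  -- the two maximum points
  have hp0 : p α = 1 := by simpa using hα 0
  have hp2 : p (α + 2 * Real.pi) = 1 := by
    have := hα 2
    simpa using this
  have hv1 : ⟪ξ, curve e f p α⟫ = a := by
    rw [hval, hp0]; simp
  have hv2 : ⟪ξ, curve e f p (α + 2 * Real.pi)⟫ = a := by
    rw [hval, hp2]; simp
  have hdist : curve e f p α ≠ curve e f p (α + 2 * Real.pi) := by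
    intro h
    rw [curve, curve, hp0, hp2, nn_add_two_pi, tt_add_two_pi] at h
    have h3 : (deriv p α - deriv p (α + 2 * Real.pi)) • tt e f α = 0 := by
      rw [sub_smul]
      have := add_left_cancel h
      rw [this, sub_self]
    rcases smul_eq_zero.1 h3 with h4 | h4
    · exact hne (sub_eq_zero.1 h4)
    · exact tt_ne_zero e f hef α h4
  exact exists_normal hcd (T := 4 * Real.pi) (by positivity) hcper ξ hub hlb hcrit hfin hdist
    hv1 hv2 hH himm hb

end Pool.Agent.H36
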