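import Pool.Agent.H36.FrameSupport

open Set Metric Filter Topology
open scoped ContDiff RealInnerProductSpace

namespace Pool.Agent.H36

/-- The vector `(1, 0, c)`. -/
noncomputable def ve (c : ℝ) : EuclideanSpace ℝ (Fin 3) := !₂[1, 0, c]

/-- The vector `(0, 1, 0)`. -/
noncomputable def vf : EuclideanSpace ℝ (Fin 3) := !₂[0, 1, 0]

theorem ve_vf_indep (c : ℝ) : LinearIndependent ℝ ![ve c, vf] := by
  rw [LinearIndependent.pair_iff]
  intro s t h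
  have h0 := congrArg (fun v : EuclideanSpace ℝ (Fin 3) => v 0) h
  have h1 := congrArg (fun v : EuclideanSpace ℝ (Fin 3) => v 1) h
  simp [ve, vf] at h0 h1
  exact ⟨h0, h1⟩

theorem inner_ve (ξ : EuclideanSpace ℝ (Fin 3)) (c : ℝ) : ⟪ξ, ve c⟫ = ξ 0 + c * ξ 2 := by
  simp [ve, PiLp.inner_apply, Fin.sum_univ_three]

theorem inner_vf (ξ : EuclideanSpace ℝ (Fin 3)) : ⟪ξ, vf⟫ = ξ 1 := by
  simp [vf, PiLp.inner_apply, Fin.sum_univ_three]

theorem exists_plane {k : ℕ} (ξ : Fin k → EuclideanSpace ℝ (Fin 3)) (hξ : ∀ i, ξ i ≠ 0) :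
    ∃ c : ℝ, ∀ i, ¬ (⟪ξ i, ve c⟫ = 0 ∧ ⟪ξ i, vf⟫ = 0) := by
  classical
  obtain ⟨c, hc⟩ := Infinite.exists_notMem_finset
    (Finset.univ.image fun i => -(ξ i 0) / (ξ i 2))
  refine ⟨c, fun i hi => ?_⟩
  rw [inner_ve, inner_vf] at hi
  by_cases h2 : ξ i 2 = 0
  · apply hξ i
    ext j
    fin_cases j
    · simpa [h2] using hi.1
    · simpa using hi.2
    · simpa using h2
  · apply hc
    rw [Finset.mem_image]
    refine ⟨i, Finset.mem_univ _, ?_⟩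
    rw [div_eq_iff h2]
    linarith [hi.1]

theorem exists_polar {A B : ℝ} (h : ¬ (A = 0 ∧ B = 0)) :
    ∃ a α : ℝ, 0 < a ∧ A = a * Real.cos α ∧ B = a * Real.sin α := by
  have hz : (⟨A, B⟩ : ℂ) ≠ 0 := by
    intro h0
    exact h ⟨congrArg Complex.re h0, congrArg Complex.im h0⟩
  refine ⟨‖(⟨A, B⟩ : ℂ)‖, (⟨A, B⟩ : ℂ).arg, norm_pos_iff.2 hz, ?_, ?_⟩
  · exact (Complex.norm_mul_cos_arg (⟨A, B⟩ : ℂ)).symm
  · exact (Complex.norm_mul_sin_arg (⟨A, B⟩ : ℂ)).symm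

end Pool.Agent.H36
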