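import Mathlib

open Set Metric Filter Topology Asymptotics

namespace Pool.Agent.H36

/-- If a curve `w` with nonzero velocity at `t` runs inside the image of a periodic curve `γ`,
then `γ` passes through `w t` in a direction killed by every given functional that kills the
velocity of `w`. -/
theorem exists_tangent {E : Type*} [NormedAddCommGroup E] [NormedSpace ℝ E]
    {γ γ' : ℝ → E} (hγ : ∀ x, HasDerivAt γ (γ' x) x) {T : ℝ} (hT : 0 < T)
    (hper : ∀ x, γ (x + T) = γ x) {w : ℝ → E} {w' : E} {t : ℝ}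
    (hw : HasDerivAt w w' t) (hw' : w' ≠ 0) (hr : ∀ s, w s ∈ range γ)
    (ℓ : E →L[ℝ] ℝ) (hℓ : ℓ w' = 0) : ∃ x, γ x = w t ∧ ℓ (γ' x) = 0 := by
  have hsel : ∀ s, ∃ x ∈ Icc (0:ℝ) T, γ x = w s := by
    intro s
    obtain ⟨y, hy⟩ := hr s
    have hp : Function.Periodic γ T := hper
    obtain ⟨z, hz, hzy⟩ := hp.exists_mem_Ico₀ hT y
    exact ⟨z, ⟨hz.1, hz.2.le⟩, by rw [← hzy, hy]⟩
  choose X hX hXw using hsel
  have hτ : Tendsto (fun n : ℕ => t + 1 / ((n : ℝ) + 1)) atTop (𝓝 t) := by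
    simpa using tendsto_const_nhds.add (tendsto_one_div_add_atTop_nhds_zero_nat (𝕜 := ℝ))
  obtain ⟨x, hx, σ, hσ, hlim⟩ := isCompact_Icc.tendsto_subseq
    (x := fun n : ℕ => X (t + 1 / ((n : ℝ) + 1))) (fun n => hX _)
  have hτσ : Tendsto (fun n : ℕ => t + 1 / ((σ n : ℝ) + 1)) atTop (𝓝 t) :=
    hτ.comp hσ.tendsto_atTop
  have hγx : γ x = w t := by
    have h1 : Tendsto (fun n => γ (X (t + 1 / ((σ n : ℝ) + 1)))) atTop (𝓝 (γ x)) :=
      (hγ x).continuousAt.tendsto.comp hlim
    have h2 : Tendsto (fun n => w (t + 1 / ((σ n : ℝ) + 1))) atTop (𝓝 (w t)) :=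
      hw.continuousAt.tendsto.comp hτσ
    simp only [hXw] at h1
    exact tendsto_nhds_unique h1 h2
  refine ⟨x, hγx, ?_⟩
  by_contra hne
  set ε : ℕ → ℝ := fun n => (t + 1 / ((σ n : ℝ) + 1)) - t with hε
  set d : ℕ → ℝ := fun n => X (t + 1 / ((σ n : ℝ) + 1)) - x with hd
  set A : ℕ → E := fun n => w (t + 1 / ((σ n : ℝ) + 1)) - w t with hA
  have hAw : (fun n => A n - ε n • w') =o[atTop] ε := by
    have := (hasDerivAt_iff_isLittleO.1 hw).comp_tendsto hτσ
    exact this
  have hAγ : (fun n => A n - d n • γ' x) =o[atTop] d := by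
    have := (hasDerivAt_iff_isLittleO.1 (hγ x)).comp_tendsto hlim
    have e : (fun n => A n - d n • γ' x) = (fun x' => γ x' - γ x - (x' - x) • γ' x) ∘
        (fun n : ℕ => X (t + 1 / ((n : ℝ) + 1))) ∘ σ := by
      funext n
      simp [hA, hd, hXw, hγx]
    rw [e]
    exact this
  have hℓA : (fun n => ℓ (A n)) =o[atTop] ε := by
    have h1 : (fun n => ℓ (A n - ε n • w')) =O[atTop] (fun n => A n - ε n • w') :=
      ℓ.isBigO_comp _ _
    have h2 := h1.trans_isLittleO hAw
    simpa [hℓ] using h2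
  have hℓd : (fun n => ℓ (A n - d n • γ' x)) =o[atTop] d :=
    (ℓ.isBigO_comp _ _).trans_isLittleO hAγ
  -- `d = O(ℓ A)`
  have hdO : d =O[atTop] (fun n => ℓ (A n)) := by
    have h1 : (fun n => (ℓ (γ' x))⁻¹ * (-(ℓ (A n - d n • γ' x)))) =o[atTop] d :=
      (hℓd.neg_left).const_mul_left _
    have h2 := h1.right_isBigO_sub
    have e : (fun n => d n - (ℓ (γ' x))⁻¹ * (-(ℓ (A n - d n • γ' x)))) =
        fun n => (ℓ (γ' x))⁻¹ * ℓ (A n) := by
      funext n
      rw [map_sub, map_smul, smul_eq_mul]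
      field_simp
      ring
    rw [e] at h2
    exact h2.trans (isBigO_const_mul_self _ _ _)
  have hdε : d =o[atTop] ε := hdO.trans_isLittleO hℓA
  have hAε : A =o[atTop] ε := by
    have h1 : (fun n => A n - d n • γ' x) =o[atTop] ε := hAγ.trans hdε
    have h2 : (fun n => d n • γ' x) =o[atTop] ε := by
      have : (fun n => d n • γ' x) =O[atTop] d := by
        apply IsBigO.of_bound ‖γ' x‖
        filter_upwards with n
        rw [norm_smul, mul_comm]
      exact this.trans_isLittleO hdε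
    have h3 := h1.add h2
    simpa using h3
  have hfin : (fun n => ε n • w') =o[atTop] ε := by
    have := hAε.sub hAw
    simpa using this
  have hpos : 0 < ‖w'‖ := norm_pos_iff.2 hw'
  have := hfin.bound (half_pos hpos)
  obtain ⟨n, hn⟩ := this.exists
  have hεn : 0 < ε n := by
    simp only [hε]
    have : (0:ℝ) < 1 / ((σ n : ℝ) + 1) := by positivity
    linarith
  rw [norm_smul, Real.norm_of_nonneg hεn.le] at hn
  nlinarith [mul_pos hεn hpos]

end Pool.Agent.H36
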