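import Pool.Agent.H36.FrameCrit
import Pool.Agent.H36.FrameTang

open Set Metric Filter Topology
open scoped ContDiff RealInnerProductSpace

namespace Pool.Agent.H36

theorem dcirc_ne_zero (t : ℝ) : dcirc t ≠ 0 := by
  intro h
  have h0 : (dcirc t) 0 = 0 := by rw [h]; rfl
  have h1 : (dcirc t) 1 = 0 := by rw [h]; rfl
  simp only [dcirc] at h0 h1
  have e0 : Real.sin t = 0 := by simpa using h0
  have e1 : Real.cos t = 0 := by simpa using h1
  have := Real.sin_sq_add_cos_sq t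
  rw [e0, e1] at this
  norm_num at this

theorem exists_circ_Ico {x : EuclideanSpace ℝ (Fin 2)} (hx : ‖x‖ = 1) :
    ∃ t, 0 ≤ t ∧ t < 2 * Real.pi ∧ circ t = x := by
  obtain ⟨t, ht⟩ := exists_circ hx
  have hp : Function.Periodic circ (2 * Real.pi) := circ_add_two_pi
  obtain ⟨s, hs, hs'⟩ := hp.exists_mem_Ico₀ (by positivity) t
  exact ⟨s, hs.1, hs.2, by rw [← hs', ht]⟩

theorem exists_normal {γ γ' : ℝ → EuclideanSpace ℝ (Fin 3)}
    (hγ : ∀ x, HasDerivAt γ (γ' x) x) {T : ℝ} (hT : 0 < T) (hper : ∀ x, γ (x + T) = γ x)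
    (ξ : EuclideanSpace ℝ (Fin 3)) {M m : ℝ}
    (hM : ∀ x, ⟪ξ, γ x⟫ ≤ M) (hm : ∀ x, m ≤ ⟪ξ, γ x⟫)
    (hcrit : ∀ x, ⟪ξ, γ' x⟫ = 0 → ⟪ξ, γ x⟫ = M ∨ ⟪ξ, γ x⟫ = m)
    (hfin : {p | ∃ x, ⟪ξ, γ' x⟫ = 0 ∧ γ x = p}.Finite)
    {x₁ x₂ : ℝ} (hne : γ x₁ ≠ γ x₂) (h1 : ⟪ξ, γ x₁⟫ = M) (h2 : ⟪ξ, γ x₂⟫ = M)
    {H : EuclideanSpace ℝ (Fin 2) → EuclideanSpace ℝ (Fin 3)}
    (hH : ContDiffOn ℝ ∞ H (closedBall 0 1))
    (himm : ∀ x ∈ closedBall (0 : EuclideanSpace ℝ (Fin 2)) 1,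
      Function.Injective (fderivWithin ℝ H (closedBall 0 1) x))
    (hb : H '' sphere 0 1 = range γ) :
    ∃ x ∈ closedBall (0 : EuclideanSpace ℝ (Fin 2)) 1,
      ∀ v, ⟪ξ, fderivWithin ℝ H (closedBall 0 1) x v⟫ = 0 := by
  have hHd : ∀ x ∈ closedBall (0 : EuclideanSpace ℝ (Fin 2)) 1,
      HasFDerivWithinAt H (fderivWithin ℝ H (closedBall 0 1) x) (closedBall 0 1) x := by
    intro x hx
    exact ((hH.differentiableOn (by simp)) x hx).hasFDerivWithinAt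
  have huniq : UniqueDiffOn ℝ (closedBall (0 : EuclideanSpace ℝ (Fin 2)) 1) :=
    uniqueDiffOn_convex (convex_closedBall _ _) ⟨0, by
      rw [mem_interior_iff_mem_nhds]; exact closedBall_mem_nhds _ one_pos⟩
  have hHc : ContinuousOn (fderivWithin ℝ H (closedBall 0 1)) (closedBall 0 1) :=
    hH.continuousOn_fderivWithin huniq (by simp)
  set w : ℝ → EuclideanSpace ℝ (Fin 3) := fun t => H (circ t) with hw
  set w' : ℝ → EuclideanSpace ℝ (Fin 3) :=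
    fun t => fderivWithin ℝ H (closedBall 0 1) (circ t) (dcirc t) with hw'
  have hwd : ∀ t, HasDerivAt w (w' t) t := fun t =>
    (hHd _ (circ_mem_closedBall t)).comp_hasDerivAt t (hasDerivAt_circ t)
      (Filter.Eventually.of_forall circ_mem_closedBall)
  have hw0 : ∀ t, w' t ≠ 0 := by
    intro t h
    apply dcirc_ne_zero t
    apply himm _ (circ_mem_closedBall t)
    rw [map_zero]
    exact h
  have hwr : ∀ t, w t ∈ range γ := by
    intro t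
    rw [← hb]
    exact ⟨circ t, circ_mem_sphere t, rfl⟩
  have htang : ∀ t, ⟪ξ, w' t⟫ = 0 → ∃ x, γ x = w t ∧ ⟪ξ, γ' x⟫ = 0 := by
    intro t ht
    obtain ⟨x, hx, hx'⟩ := exists_tangent hγ hT hper (hwd t) (hw0 t) hwr (innerSL ℝ ξ)
      (by simpa using ht)
    exact ⟨x, hx, by simpa using hx'⟩
  obtain ⟨y₁, hy₁, hyH₁⟩ : γ x₁ ∈ H '' sphere 0 1 := by rw [hb]; exact mem_range_self _
  obtain ⟨y₂, hy₂, hyH₂⟩ : γ x₂ ∈ H '' sphere 0 1 := by rw [hb]; exact mem_range_self _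
  obtain ⟨t₁, ht₁, ht₁', hc₁⟩ := exists_circ_Ico (x := y₁) (by simpa using hy₁)
  obtain ⟨t₂, ht₂, ht₂', hc₂⟩ := exists_circ_Ico (x := y₂) (by simpa using hy₂)
  have hm₁ : ⟪ξ, w t₁⟫ = M := by rw [hw]; simp only [hc₁, hyH₁]; exact h1
  have hm₂ : ⟪ξ, w t₂⟫ = M := by rw [hw]; simp only [hc₂, hyH₂]; exact h2
  have hne' : t₁ ≠ t₂ := by
    rintro rfl
    apply hne
    rw [← hyH₁, ← hyH₂, ← hc₁, ← hc₂]
  have hwM : ∀ t, ⟪ξ, w t⟫ ≤ M := by
    intro t; obtain ⟨x, hx⟩ := hwr t; rw [← hx]; exact hM x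
  have hwm : ∀ t, m ≤ ⟪ξ, w t⟫ := by
    intro t; obtain ⟨x, hx⟩ := hwr t; rw [← hx]; exact hm x
  -- apply the critical point lemma
  have hfd : ∀ x ∈ closedBall (0 : EuclideanSpace ℝ (Fin 2)) 1,
      HasFDerivWithinAt (fun x => ⟪ξ, H x⟫)
        ((innerSL ℝ ξ).comp (fderivWithin ℝ H (closedBall 0 1) x)) (closedBall 0 1) x := by
    intro x hx
    exact (innerSL ℝ ξ).hasFDerivAt.comp_hasFDerivWithinAt x (hHd x hx)
  have hfc : ContinuousOn (fun x => (innerSL ℝ ξ).comp (fderivWithin ℝ H (closedBall 0 1) x))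
      (closedBall 0 1) := continuousOn_const.clm_comp hHc
  have hcrit' : ∀ t, ((innerSL ℝ ξ).comp (fderivWithin ℝ H (closedBall 0 1) (circ t))) (dcirc t) = 0 →
      (fun x => ⟪ξ, H x⟫) (circ t) = M ∨ (fun x => ⟪ξ, H x⟫) (circ t) = m := by
    intro t ht
    obtain ⟨x, hx, hx'⟩ := htang t (by simpa using ht)
    have := hcrit x hx'
    rw [hx] at this
    exact this
  have hiso' : ∀ t, ((innerSL ℝ ξ).comp (fderivWithin ℝ H (closedBall 0 1) (circ t))) (dcirc t) = 0 →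
      ∀ᶠ s in 𝓝[≠] t,
        ((innerSL ℝ ξ).comp (fderivWithin ℝ H (closedBall 0 1) (circ s))) (dcirc s) ≠ 0 := by
    intro t _
    have h1 : ∀ᶠ s in 𝓝[≠] t, w s ≠ w t := (hwd t).eventually_ne (hw0 t)
    have h2 : ∀ᶠ s in 𝓝 t, w s ∈ ({p | ∃ x, ⟪ξ, γ' x⟫ = 0 ∧ γ x = p} \ {w t})ᶜ := by
      apply (hwd t).continuousAt.eventually_mem
      apply IsOpen.mem_nhds
      · exact (hfin.subset sdiff_subset).isClosed.isOpen_compl
      · simp
    filter_upwards [h1, h2.filter_mono nhdsWithin_le_nhds] with s hs1 hs2 hs3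
    apply hs2
    obtain ⟨x, hx, hx'⟩ := htang s (by simpa using hs3)
    exact ⟨⟨x, hx', hx⟩, hs1⟩
  have hconc : ∃ x ∈ closedBall (0 : EuclideanSpace ℝ (Fin 2)) 1,
      (innerSL ℝ ξ).comp (fderivWithin ℝ H (closedBall 0 1) x) = 0 := by
    rcases lt_or_gt_of_ne hne' with hlt | hlt
    · exact exists_critical hfd hfc hwM hwm hcrit' hiso' hlt (by linarith) hm₁ hm₂
    · exact exists_critical hfd hfc hwM hwm hcrit' hiso' hlt (by linarith) hm₂ hm₁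
  obtain ⟨x, hx, hx0⟩ := hconc
  refine ⟨x, hx, fun v => ?_⟩
  have := DFunLike.congr_fun hx0 v
  simpa using this

end Pool.Agent.H36
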