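import Pool.Agent.H36.FrameCurve

open Set Metric Filter Topology
open scoped ContDiff RealInnerProductSpace

namespace Pool.Agent.H36

theorem exists_phase {k : ℕ} (α : Fin k → ℝ) : ∃ β : ℝ, ∀ i, Real.sin (α i / 2 + β) ≠ 0 := by
  have hc : (⋃ i : Fin k, ⋃ n : ℤ, {(n : ℝ) * Real.pi - α i / 2}).Countable :=
    countable_iUnion fun i => countable_iUnion fun n => countable_singleton _
  obtain ⟨β, hβ⟩ := (hc.dense_compl ℝ).nonempty
  refine ⟨β, fun i h => hβ ?_⟩
  obtain ⟨n, hn⟩ := Real.sin_eq_zero_iff.1 h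
  simp only [mem_iUnion, mem_singleton_iff]
  exact ⟨i, n, by linarith⟩

theorem exists_support {k : ℕ} (α : Fin k → ℝ) :
    ∃ p : ℝ → ℝ, ContDiff ℝ ∞ p ∧ (∀ x, p (x + 4 * Real.pi) = p x) ∧
      (∀ x, 0 < p x + deriv (deriv p) x) ∧
      ∀ i, (∀ n : ℤ, p (α i + n * Real.pi) = 1) ∧
        deriv p (α i) ≠ deriv p (α i + 2 * Real.pi) := by
  classical
  have hπ := Real.pi_pos
  obtain ⟨β, hβ⟩ := exists_phase α
  set θ : Fin k → ℝ := fun i => toIcoMod Real.pi_pos 0 (α i) with hθ
  set Θ : Finset ℝ := Finset.univ.image θ with hΘ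
  have hθΘ : ∀ i, θ i ∈ Θ := fun i => Finset.mem_image_of_mem _ (Finset.mem_univ _)
  have hΘm : ∀ y ∈ Θ, 0 ≤ y ∧ y < Real.pi := by
    intro y hy
    rw [hΘ, Finset.mem_image] at hy
    obtain ⟨i, -, rfl⟩ := hy
    have := toIcoMod_mem_Ico Real.pi_pos 0 (α i)
    simpa using this
  have hαθ : ∀ i, ∃ n : ℤ, α i = θ i + n * Real.pi := by
    intro i
    refine ⟨toIcoDiv Real.pi_pos 0 (α i), ?_⟩
    have := toIcoMod_add_toIcoDiv_zsmul Real.pi_pos 0 (α i)
    rw [zsmul_eq_mul] at this
    exact this.symm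
  set s : ℝ → ℝ := fun x => Real.sin (x / 2 + β) * ∏ y ∈ Θ, Real.sin (x - y) with hs
  have hsc : ContDiff ℝ ∞ s := by
    apply ContDiff.mul
    · exact Real.contDiff_sin.comp (by fun_prop)
    · apply contDiff_prod
      intro y _
      exact Real.contDiff_sin.comp (by fun_prop)
  have hsper : ∀ x, s (x + 4 * Real.pi) = s x := by
    intro x
    simp only [hs]
    have e1 : (x + 4 * Real.pi) / 2 + β = x / 2 + β + 2 * Real.pi := by ring
    rw [e1, Real.sin_add_two_pi]
    congr 1
    apply Finset.prod_congr rfl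
    intro y _
    have e2 : x + 4 * Real.pi - y = x - y + 2 * Real.pi + 2 * Real.pi := by ring
    rw [e2, Real.sin_add_two_pi, Real.sin_add_two_pi]
  have hsz : ∀ i, ∀ n : ℤ, s (α i + n * Real.pi) = 0 := by
    intro i n
    simp only [hs]
    apply mul_eq_zero_of_right
    apply Finset.prod_eq_zero (hθΘ i)
    obtain ⟨m, hm⟩ := hαθ i
    have : α i + n * Real.pi - θ i = ((m + n : ℤ) : ℝ) * Real.pi := by
      rw [hm]; push_cast; ring
    rw [this, Real.sin_int_mul_pi]
  have hsd : ∀ i, ∀ x, Real.sin (x - θ i) = 0 →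
      deriv s x = Real.cos (x - θ i) * (Real.sin (x / 2 + β) *
        ∏ y ∈ Θ.erase (θ i), Real.sin (x - y)) := by
    intro i x hx
    have hsplit : s = fun x => Real.sin (x - θ i) * (Real.sin (x / 2 + β) *
        ∏ y ∈ Θ.erase (θ i), Real.sin (x - y)) := by
      funext z
      simp only [hs]
      rw [← Finset.mul_prod_erase Θ (fun y => Real.sin (z - y)) (hθΘ i)]
      ring
    have hd1 : HasDerivAt (fun x => Real.sin (x - θ i)) (Real.cos (x - θ i)) x := by
      have := (Real.hasDerivAt_sin (x - θ i)).comp_sub_const x (θ i)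
      exact this
    have hQ : ContDiff ℝ ∞ (fun x => Real.sin (x / 2 + β) *
        ∏ y ∈ Θ.erase (θ i), Real.sin (x - y)) := by
      apply ContDiff.mul
      · exact Real.contDiff_sin.comp (by fun_prop)
      · apply contDiff_prod
        intro y _
        exact Real.contDiff_sin.comp (by fun_prop)
    have hd2 := (hQ.differentiable (by simp)).differentiableAt.hasDerivAt (x := x)
    rw [hsplit]
    have := (hd1.mul hd2).deriv
    refine this.trans ?_
    rw [hx, zero_mul, add_zero]
  have hQne : ∀ i, ∏ y ∈ Θ.erase (θ i), Real.sin (α i - y) ≠ 0 := by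
    intro i
    rw [Finset.prod_ne_zero_iff]
    intro y hy h0
    rw [Finset.mem_erase] at hy
    obtain ⟨n, hn⟩ := Real.sin_eq_zero_iff.1 h0
    obtain ⟨m, hm⟩ := hαθ i
    have h1 := hΘm y hy.2
    have h2 := hΘm _ (hθΘ i)
    have h3 : θ i - y = ((n - m : ℤ) : ℝ) * Real.pi := by push_cast; linarith
    have h4 : ((n - m : ℤ) : ℝ) * Real.pi < 1 * Real.pi := by rw [← h3]; linarith
    have h5 : (-1 : ℝ) * Real.pi < ((n - m : ℤ) : ℝ) * Real.pi := by rw [← h3]; linarith
    have h6 : ((n - m : ℤ) : ℝ) < 1 := lt_of_mul_lt_mul_right h4 hπ.le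
    have h7 : (-1 : ℝ) < ((n - m : ℤ) : ℝ) := lt_of_mul_lt_mul_right h5 hπ.le
    have h8 : n - m < 1 := by exact_mod_cast h6
    have h9 : -1 < n - m := by exact_mod_cast h7
    have h10 : n - m = 0 := by omega
    rw [h10] at h3
    simp at h3
    exact hy.1 (by linarith)
  have hsne : ∀ i, deriv s (α i) ≠ deriv s (α i + 2 * Real.pi) := by
    intro i
    have h0 : Real.sin (α i - θ i) = 0 := by
      obtain ⟨m, hm⟩ := hαθ i
      have : α i - θ i = (m : ℝ) * Real.pi := by linarith
      rw [this, Real.sin_int_mul_pi]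
    have h1 : Real.sin (α i + 2 * Real.pi - θ i) = 0 := by
      have : α i + 2 * Real.pi - θ i = α i - θ i + 2 * Real.pi := by ring
      rw [this, Real.sin_add_two_pi, h0]
    rw [hsd i _ h0, hsd i _ h1]
    have e1 : α i + 2 * Real.pi - θ i = α i - θ i + 2 * Real.pi := by ring
    have e2 : (α i + 2 * Real.pi) / 2 + β = α i / 2 + β + Real.pi := by ring
    have e3 : ∏ y ∈ Θ.erase (θ i), Real.sin (α i + 2 * Real.pi - y) =
        ∏ y ∈ Θ.erase (θ i), Real.sin (α i - y) := by
      apply Finset.prod_congr rfl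
      intro y _
      have : α i + 2 * Real.pi - y = α i - y + 2 * Real.pi := by ring
      rw [this, Real.sin_add_two_pi]
    rw [e1, e2, e3, Real.cos_add_two_pi, Real.sin_add_pi]
    have hc0 : Real.cos (α i - θ i) ≠ 0 := by
      intro hc
      have := Real.sin_sq_add_cos_sq (α i - θ i)
      rw [h0, hc] at this
      norm_num at this
    intro h
    have h2 : Real.cos (α i - θ i) * (Real.sin (α i / 2 + β) *
        ∏ y ∈ Θ.erase (θ i), Real.sin (α i - y)) = 0 := by linarith
    exact (mul_ne_zero hc0 (mul_ne_zero (hβ i) (hQne i))) h2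
  -- bound
  have hsd1 : ContDiff ℝ ∞ (deriv s) := ((contDiff_infty_iff_deriv).1 hsc).2
  have hsd2 : ContDiff ℝ ∞ (deriv (deriv s)) := ((contDiff_infty_iff_deriv).1 hsd1).2
  have hdper : ∀ x, deriv s (x + 4 * Real.pi) = deriv s x := by
    intro x
    rw [← deriv_comp_add_const s (4 * Real.pi) x]
    simp only [hsper]
  have hddper : ∀ x, deriv (deriv s) (x + 4 * Real.pi) = deriv (deriv s) x := by
    intro x
    rw [← deriv_comp_add_const (deriv s) (4 * Real.pi) x]
    simp only [hdper]
  obtain ⟨C, hC⟩ := (isCompact_Icc (a := (0:ℝ)) (b := 4 * Real.pi)).exists_bound_of_continuousOn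
    (hsc.continuous.add hsd2.continuous).continuousOn
  have hCall : ∀ x, |s x + deriv (deriv s) x| ≤ C := by
    intro x
    have hp : Function.Periodic (fun x => s x + deriv (deriv s) x) (4 * Real.pi) := by
      intro x; simp only [hsper, hddper]
    obtain ⟨y, hy, hxy⟩ := hp.exists_mem_Ico₀ (by positivity) x
    have := hC y ⟨hy.1, hy.2.le⟩
    rw [← Real.norm_eq_abs]
    rw [hxy]
    exact this
  have hC0 : 0 ≤ C := (abs_nonneg _).trans (hCall 0)
  set η : ℝ := 1 / (C + 1) with hη
  have hη0 : 0 < η := by positivity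
  have hdp : deriv (fun x => 1 + η * s x) = fun x => η * deriv s x := by
    funext x
    rw [deriv_const_add, deriv_const_mul]
    exact (hsc.differentiable (by simp)).differentiableAt
  have hddp : deriv (deriv (fun x => 1 + η * s x)) = fun x => η * deriv (deriv s) x := by
    rw [hdp]
    funext x
    rw [deriv_const_mul]
    exact (hsd1.differentiable (by simp)).differentiableAt
  refine ⟨fun x => 1 + η * s x, contDiff_const.add (contDiff_const.mul hsc), ?_, ?_, ?_⟩
  · intro x; simp only [hsper]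
  · intro x
    rw [hddp]
    have h1 : η * (s x + deriv (deriv s) x) ≥ -(η * C) := by
      have := (abs_le.1 (hCall x)).1
      nlinarith
    have h2 : η * C < 1 := by
      rw [hη, div_mul_eq_mul_div, one_mul, div_lt_one (by linarith)]
      linarith
    simp only
    nlinarith
  · intro i
    refine ⟨fun n => by simp only [hsz, mul_zero, add_zero], ?_⟩
    rw [hdp]
    simp only
    intro h
    exact hsne i (mul_left_cancel₀ hη0.ne' h)

end Pool.Agent.H36
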